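import Pool.Agent.MP_13199e_lc.QL.I.Spec

/-! PROJECT QL, block IMPL: the gate for the correction in a row. -/

set_option autoImplicit false

namespace Pool.Agent.PP.QL.I

open Pool.Agent.MP_13199e_lc Pool.Agent.PolyT Pool.Agent.H82 Function Env

namespace Ecg

/-- The value below `u.length` that fills more than half of the list `s`. -/
def maj (u : List Bool) (s : List ℕ) : ℕ :=
  ((idx u).find? fun c => ltB s.length (s.countP (eqB c) + s.countP (eqB c))).getD 0

theorem maj_eq {u : List Bool} {s : List ℕ} {c : ℕ} (hc : c < u.length)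
    (h : s.length < 2 * s.countP (eqB c)) : maj u s = c := by
  rw [maj]
  cases e : (idx u).find? fun c => ltB s.length (s.countP (eqB c) + s.countP (eqB c)) with
  | none =>
    have := List.find?_eq_none.1 e c (mem_idx.2 hc)
    rw [ltB_iff] at this
    omega
  | some d =>
    have k := List.find?_some e
    rw [ltB_iff] at k
    by_contra n
    have a := List.length_eq_countP_add_countP (eqB c) (l := s)
    have b : s.countP (eqB d) ≤ s.countP fun x => ¬eqB c x = true :=
      List.countP_mono_left fun x _ hx => by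
        rw [← eqB_iff.1 hx]
        simpa using fun w => n w.symm
    omega

/-- The sum over the other points of the line in the direction `ρ`. -/
def ln (N : Num) (v : Bool) (σ : Sg) (l : ℕ) (t : List (LR × ℕ)) (ρ : List ℕ) : ℕ :=
  xs ((idx σ.2).tail.map fun c => lk t (0, wV false l v (ρ.map fun n => N.mul (σ, c, n)), false) 0)

/-- The gate. -/
def op (N : Num) (v : Bool) : Op where
  rd x := (N.al x.1).map fun a => (0, wV false x.2 v a, false)
  fn x := maj x.1.1.2 ((N.al x.1.1).map (ln N v x.1.1 x.1.2 x.2.2.2))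

theorem pol {N : Num} (h : N.Pol) (v : Bool) : (op N v).Pol := by
  obtain ⟨h1, -, -, h4, -⟩ := h
  constructor
  · unfold op
    fun_prop
  · unfold op maj ln
    fun_prop

end Ecg

open Ecg in
theorem opEc (v : Bool) : OpS (fEc v) := fun N Γ hN _ => ⟨op N v, pol hN v,
  fun wr σ E Γ' S l x tb p o h G c hG hb => h.is fun t ht => by
    obtain ⟨la, e, nd, al⟩ := S.num.al
    have k : ∀ ρ : E.A, (¬∃ s : E.K, s ≠ 0 ∧ ¬Is (x 0 (cp (vw false l v (s • ρ) p)))
        (G (vw false l v (s • ρ) p))) → eqB (E.cd c : ℕ) (ln N v σ l t (ca ρ)) = true := by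
      intro ρ hρ
      rw [eqB_iff, ← hG ρ]
      refine (xs_nz S.num.fld _ _ fun s hs => ?_).symm
      rw [← S.nb.cmul N σ S.num]
      have := ht (0, wV false l v (ca (s • ρ)), false)
        (List.mem_map.2 ⟨_, e ▸ List.mem_map_of_mem (al _), rfl⟩)
      simp only [S.wr.lV] at this
      exact fit_is this (by_contra fun u => hρ ⟨s, hs, u⟩)
    have m := pr_mono k
    rw [pr_not, pr_list nd al] at m
    have l0 : (0 : ℝ) < la.length := Nat.cast_pos.2 (List.length_pos_of_mem (al 0))
    rw [le_div_iff₀ l0] at m
    refine maj_eq ((E.cd c).2.trans_eq S.num.fld.symm) ?_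
    rw [e, List.map_map, List.countP_map, List.length_map, ← Nat.cast_lt (α := ℝ)]
    push_cast
    simp only [Function.comp_def]
    nlinarith [mul_lt_mul_of_pos_left hb l0]⟩

end Pool.Agent.PP.QL.I
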