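import Pool.Agent.MP_13199e_lc.QL.I.Spec

/-! PROJECT QL, block IMPL, row GEN: a layout of gates is a plain circuit. -/

set_option autoImplicit false

namespace Pool.Agent.PP.QL.I

open Pool.Agent.MP_13199e_lc Pool.Agent.PolyT Pool.Agent.H82 N487b59b3 Function Env

namespace Gen

/-- The product of two lists. -/
def prd {β γ : Type} (l : List β) (l' : List γ) : List (β × γ) :=
  l.flatMap fun a => l'.map fun b => (a, b)

@[fun_prop] theorem p_prd {α β γ : Type} [N487b59b3 α] [N487b59b3 β] [N487b59b3 γ]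
    {l : α → List β} {l' : α → List γ} (h : Poly l) (h' : Poly l') :
    Poly fun a => prd (l a) (l' a) := by
  unfold prd
  fun_prop

theorem prd_eq {β γ : Type} (l : List β) (l' : List γ) : prd l l' = l ×ˢ l' := rfl

theorem blk {κ : Type} [DecidableEq κ] {l : List κ} {F : κ → List ℕ} {n : ℕ}
    (h : ∀ k, (F k).length = n) {k : κ} (hk : k ∈ l) :
    ((l.flatMap F).drop (n * l.idxOf k)).take n = F k := by
  induction l with
  | nil => cases hk
  | cons x l ih =>
    rw [List.flatMap_cons]
    by_cases e : x = k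
    · rw [e, List.idxOf_cons_self, mul_zero, List.drop_zero, List.take_left' (h k)]
    · rw [List.idxOf_cons_ne _ e, Nat.succ_eq_add_one, mul_add, mul_one, add_comm,
        ← List.drop_drop, List.drop_left' (h x)]
      exact ih ((List.mem_cons.1 hk).resolve_left (Ne.symm e))

theorem lk_zip {β : Type} [DecidableEq β] {P : β → ℕ → Prop} {l : List β} {vs : List ℕ}
    (h : List.Forall₂ P l vs) : ∀ r ∈ l, P r (lk (l.zip vs) r 0) := by
  induction h with
  | nil => simp
  | @cons a b l vs h _ ih =>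
    intro r hr
    by_cases e : a = r
    · simpa [lk, e] using e ▸ h
    · simpa [lk, e] using ih r ((List.mem_cons.1 hr).resolve_left (Ne.symm e))

/-- A key of the layout. -/
def san {κ : Type} [DecidableEq κ] (l : List κ) (k : κ) : κ :=
  bif l.any fun x => eqB x k then k else l.headD k

theorem san_of_mem {κ : Type} [DecidableEq κ] {l : List κ} {k : κ} (h : k ∈ l) : san l k = k := by
  rw [san, (List.any_eq_true (p := fun x => eqB x k)).2 ⟨k, h, eqB_iff.2 rfl⟩, cond_true]

theorem san_mem {κ : Type} [DecidableEq κ] {l : List κ} (h : l ≠ []) (k : κ) : san l k ∈ l := by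
  by_cases e : k ∈ l
  · rwa [san_of_mem e]
  · obtain ⟨x, l, rfl⟩ := List.exists_cons_of_ne_nil h
    rw [san, (List.any_eq_false (p := fun x => eqB x k)).2 fun y hy u => e (eqB_iff.1 u ▸ hy),
      cond_false]
    exact List.mem_cons_self

@[fun_prop] theorem p_san {α κ : Type} [N487b59b3 α] [N487b59b3 κ] [DecidableEq κ]
    {l : α → List κ} {k : α → κ} (h : Poly l) (h' : Poly k) : Poly fun a => san (l a) (k a) := by
  unfold san
  fun_prop

theorem card_A (E : Env) : Nat.card E.A = (2 ^ (2 * E.e)) ^ 4 := by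
  rw [Nat.card_fun, Nat.card_fin, Nat.card_eq_fintype_card, E.card_K]

theorem card_P (E : Env) : Nat.card E.P = 2 ^ E.D * (2 ^ (2 * E.e)) ^ 16 := by
  rw [Nat.card_prod, Nat.card_prod, Nat.card_prod, card_A, Nat.card_fun, Nat.card_zmod,
    Nat.card_fin]
  ring

theorem four {a b c d r : List ℕ} (ha : a.length = 4) (hb : b.length = 4) (hc : c.length = 4)
    (hd : d.length = 4) : ∀ x, x = a ++ (b ++ (c ++ (d ++ r))) → x.take 4 = a ∧
      (x.drop 4).take 4 = b ∧ (x.drop 8).take 4 = c ∧ (x.drop 12).take 4 = d ∧ x.drop 16 = r := by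
  rintro _ rfl
  have h1 : (a ++ (b ++ (c ++ (d ++ r)))).drop 4 = _ := List.drop_left' ha
  have h2 : (a ++ (b ++ (c ++ (d ++ r)))).drop (4 + 4) = c ++ (d ++ r) := by
    rw [← List.drop_drop, h1, List.drop_left' hb]
  have h3 : (a ++ (b ++ (c ++ (d ++ r)))).drop (8 + 4) = d ++ r := by
    rw [← List.drop_drop, h2, List.drop_left' hc]
  have h4 : (a ++ (b ++ (c ++ (d ++ r)))).drop (12 + 4) = r := by
    rw [← List.drop_drop, h3, List.drop_left' hd]
  exact ⟨List.take_left' ha, by rw [h1, List.take_left' hb], by rw [h2, List.take_left' hc],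
    by rw [h3, List.take_left' hd], h4⟩

end Gen

open Gen in
theorem genS : GenS := by
  rintro hM α κ _ _ _ N sg big wr O lay par src tab ⟨-, -, -, n4, n5⟩ psg pbig pwr ⟨o1, o2⟩ play
    ppar psrc ptab hne
  let M : Mac α Sg κ Wn NP :=
    { sg := sg
      wi := fun σ => σ.2.length.bits.tail
      cl := fun σ => List.replicate 16 true ++ (lay σ).flatMap fun _ => List.replicate 512 true
      lay := lay
      rds := fun x => (O.rd (x.1, par x)).map fun r => (san (lay x.1) (src (x.1, x.2, r.1)), r.2)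
      fn := fun x => O.fn ((x.1.1, par x.1), ((x.2.1.take 4, (x.2.1.drop 4).take 4),
        ((x.2.1.drop 8).take 4, (x.2.1.drop 12).take 4)),
        ((x.2.1.drop 16).drop (512 * (lay x.1.1).idxOf x.1.2)).take 512,
        (O.rd (x.1.1, par x.1)).zip x.2.2)
      pts := fun a => prd (idx (big a)) (prd (prd (N.al (sg a)) (N.al (sg a)))
        (prd (N.al (sg a)) (N.al (sg a))))
      wr := fun x => wr (sg x.1, x.2)
      ctx := fun x => x.2.2.1.1 ++ (x.2.2.1.2 ++ (x.2.2.2.1 ++ (x.2.2.2.2 ++
        (lay (sg x.1)).flatMap fun k => (List.range 512).map fun n => N.en (sg x.1,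
          (idx (big x.1)).map fun h => tab (x.1, k, n, h), x.2.1, x.2.2.1)))) }
  obtain ⟨f, L, r, pf, pL, pr', H⟩ := hM α Sg κ Wn NP M ⟨psg, by simp only [M]; fun_prop,
    by simp only [M]; fun_prop, play, by simp only [M]; fun_prop, by simp only [M]; fun_prop,
    by simp only [M]; fun_prop, by simp only [M]; fun_prop, by simp only [M]; fun_prop⟩
  refine ⟨f, L, fun x => r (x.1, san (lay (sg x.1.1)) x.2.1, x.2.2), pf, pL, by fun_prop,
    fun a E ok _ hb hw eb => ?_⟩
  obtain ⟨la, l1, l2, l3⟩ := ok.al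
  have l4 : la.length = (2 ^ (2 * E.e)) ^ 4 := by
    rw [← card_A, ← Nat.card_fin la.length]
    exact Nat.card_eq_of_bijective la.get ⟨l2.injective_get, fun x => List.get_of_mem (l3 x)⟩
  have mem : ∀ q, q ∈ M.pts a ↔ ∃ p : E.P, cp p = q := by
    rintro ⟨x, ⟨a1, a2⟩, a3, a4⟩
    simp only [M, prd_eq, List.mem_product, mem_idx, eb, l1, List.mem_map, l3, true_and]
    constructor
    · rintro ⟨h, ⟨⟨b1, rfl⟩, b2, rfl⟩, ⟨b3, rfl⟩, b4, rfl⟩
      obtain ⟨y, rfl⟩ := hb.surj x h
      exact ⟨(y, (b1, b2), b3, b4), rfl⟩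
    · rintro ⟨p, h⟩
      cases h
      exact ⟨hb.lt _, ⟨⟨_, rfl⟩, _, rfl⟩, ⟨_, rfl⟩, _, rfl⟩
  have len : (M.pts a).length = 2 ^ E.D * (2 ^ (2 * E.e)) ^ 16 := by
    simp only [M, prd_eq, List.length_product, length_idx, eb, l1, List.length_map, l4]
    ring
  have wi : (M.wi (M.sg a)).length = 2 * E.e := by
    simp only [M]
    rw [List.length_tail, Nat.size_eq_bits_len, ok.fld, Nat.size_pow, Nat.add_sub_cancel]
  have tb : ∀ k (p : E.P), ((List.range 512).map fun n => N.en (sg a,
      (idx (big a)).map fun h => tab (a, k, n, h), nb p.1, cu p.2.1)) =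
      tbs fun n => enP (fun h => bt (tab (a, k, n, nb h))) p := fun k p =>
    List.map_congr_left fun n _ => by
      rw [ok.en _ (p.1, p.2.1) (by simp [eb])]
      refine congrArg (fun X => (E.cd (enc X (p.1, p.2.1)) : ℕ)) ?_
      funext h
      simp [idx, eb, List.getD_eq_getElem?_getD, List.getElem?_range (hb.lt h)]
  have nd : (N.al (sg a)).Nodup := l1 ▸ l2.map hb.cinj
  obtain ⟨h1, h2, h3, h4⟩ := H a
    { ne := List.ne_nil_of_mem ((mem _).2 ⟨0, rfl⟩)
      nd := List.nodup_range.product ((nd.product nd).product (nd.product nd))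
      src := fun k _ r hr => by
        obtain ⟨s, -, rfl⟩ := List.mem_map.1 hr
        exact san_mem (hne _) _
      mem := fun k _ r _ q hq => by
        obtain ⟨p, rfl⟩ := (mem q).1 hq
        obtain ⟨π, -, h⟩ := hw.all r.2.1
        exact (mem _).2 ⟨π p, (h p).symm⟩
      inj := fun k _ r _ q hq q' hq' e => by
        obtain ⟨p, rfl⟩ := (mem q).1 hq
        obtain ⟨p', rfl⟩ := (mem q').1 hq'
        obtain ⟨π, i, h⟩ := hw.all r.2.1
        rw [i (hb.pinj ((h p).symm.trans (e.trans (h p'))))]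
      len := fun q hq => by
        obtain ⟨p, rfl⟩ := (mem q).1 hq
        rw [wi]
        have tb' := fun k => tb k p
        simp only [cu] at tb'
        simp only [M, cp, cu, tb', List.length_append, (hb.clen _).1, List.length_flatMap,
          List.length_replicate, List.mem_append, List.mem_flatMap]
        refine ⟨by simp only [tbs, List.length_map, List.length_range]; omega, fun c hc => ?_⟩
        rcases hc with h | h | h | h | ⟨k, -, h⟩
        · exact (hb.clen _).2 c h
        · exact (hb.clen _).2 c h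
        · exact (hb.clen _).2 c h
        · exact (hb.clen _).2 c h
        · obtain ⟨n, -, rfl⟩ := List.mem_map.1 h
          exact (E.cd _).2 }
  refine ⟨h1, len ▸ h2, h3, fun y => ?_⟩
  obtain ⟨F, f1, f2, f3⟩ := h4 y
  refine ⟨fun p => cp p ∈ F, ?_, fun p hp k hk j hj b h => ?_⟩
  · have : Finite F := f2
    have c1 : cn (fun p : E.P => cp p ∈ F) ≤ F.ncard :=
      Nat.card_le_card_of_injective (fun p => (⟨cp p.1, p.2⟩ : F))
        fun p p' e => Subtype.ext (hb.pinj (congrArg Subtype.val e))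
    rw [pr_eq_cn, card_P, div_le_iff₀ (by positivity), ← len]
    refine (Nat.cast_le.2 c1).trans (f1.trans_eq ?_)
    rw [h2]
    push_cast
    exact (mul_assoc _ _ _).symm.trans (mul_right_comm _ _ _)
  · simp only [san_of_mem hk]
    refine f3 (cp p) ((mem _).2 ⟨p, rfl⟩) hp k hk j (wi ▸ hj) b fun vs hv => ?_
    obtain ⟨e1, e2, e3, e4, e5⟩ := four (hb.clen p.2.1.1).1 (hb.clen p.2.1.2).1
      (hb.clen p.2.2.1).1 (hb.clen p.2.2.2).1 (M.ctx (a, cp p)) rfl
    rw [wi] at hv
    simp only [M, List.map_map, List.forall₂_map_left_iff] at hv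
    have := h _ (lk_zip hv)
    have e6 : ((M.ctx (a, cp p)).drop 16) = (lay (sg a)).flatMap fun k =>
        tbs fun n => enP (fun h => bt (tab (a, k, n, nb h))) p :=
      e5.trans (congrArg (lay (sg a)).flatMap (funext fun k => tb k p))
    generalize M.ctx (a, cp p) = x at e1 e2 e3 e4 e6
    simp only [M, e1, e2, e3, e4, e6]
    rw [blk (n := 512) (fun _ => by rw [tbs, List.length_map, List.length_range]) hk]
    exact this

end Pool.Agent.PP.QL.I
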