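import Pool.Agent.MP_13199e_lc.QL.I.Spec

/-! PROJECT QL, row I-PE: the gates of the tests of the edges and of the first state. -/

set_option autoImplicit false

namespace Pool.Agent.PP.QL.I

open Pool.Agent.MP_13199e_lc Pool.Agent.PolyT Pool.Agent.H82 Function Env

namespace Pe

/-- The read of the source `s` at the position itself. -/
def r (s : ℕ) : LR := (s, w0, false)

/-- The value of the source `s`. -/
def v (t : List (LR × ℕ)) (s : ℕ) : ℕ := lk t (r s) 0

@[fun_prop] theorem p_v {α : Type} [N487b59b3 α] {t : α → List (LR × ℕ)} (h : Poly t) (s : ℕ) :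
    Poly fun a => v (t a) s := p_lk h (p_const _) (p_const _)

def oPe : Op where
  rd _ := (List.range 6).map r
  fn a := ((v a.2.2.2 0).testBit 0 && (v a.2.2.2 1).testBit 0 &&
    (v a.2.2.2 2 == v a.2.2.2 3) && (v a.2.2.2 4 == v a.2.2.2 5)).toNat

def oPz : Op where
  rd _ := (List.range 6).map r
  fn a := ((v a.2.2.2 0).testBit 0 && (v a.2.2.2 1 == a.2.2.1.getD 0 0)).toNat

theorem fit {N : Num} {Γ : Sg → List NP} {wr : Sg × Wn × NP → NP} {σ : Sg} {E : Env}
    {Γ' : List E.P} (S : Stt N Γ wr σ E Γ') {x : ℕ → NP → ℕ → V4} {p : E.P} {t : List (LR × ℕ)}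
    (h : Cpl (2 * E.e) ((List.range 6).map r) (fun s w => x s (wr (σ, w, cp p))) t) (s : ℕ)
    (hs : s < 6) : Fit (2 * E.e) false (x s (cp p)) (v t s) := by
  have := h (r s) (List.mem_map_of_mem (List.mem_range.2 hs))
  simp only [r, S.wr.l0] at this
  exact this

end Pe

open Pe

theorem opPe : OpS fPe := by
  intro N Γ _ _
  refine ⟨oPe, ⟨p_const _, by unfold oPe; fun_prop⟩, fun wr σ E Γ' S l x tb p o h => ⟨?_, ?_⟩⟩
  · intro c d h0 h1 h2 h3 h4 h5
    refine h.bit (b := true) S.bas fun t ht => ?_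
    simp only [oPe, fit_bit (b := true) S.bas (fit S ht 0 (by decide)) h0,
      fit_bit (b := true) S.bas (fit S ht 1 (by decide)) h1, fit_is (fit S ht 2 (by decide)) h2, fit_is (fit S ht 3 (by decide)) h3,
      fit_is (fit S ht 4 (by decide)) h4, fit_is (fit S ht 5 (by decide)) h5, beq_self_eq_true, Bool.and_self]
  · intro h0
    refine h.bit (b := false) S.bas fun t ht => ?_
    rcases h0 with h0 | h0 | ⟨c, d, u, h1, h2⟩ | ⟨c, d, u, h1, h2⟩
    · simp only [oPe, fit_bit (b := false) S.bas (fit S ht 0 (by decide)) h0, Bool.false_and]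
    · simp only [oPe, fit_bit (b := false) S.bas (fit S ht 1 (by decide)) h0, Bool.false_and, Bool.and_false]
    · simp only [oPe, fit_is (fit S ht 2 (by decide)) h1, fit_is (fit S ht 3 (by decide)) h2,
        beq_eq_false_iff_ne.2 (mt cd_inj.1 u), Bool.false_and, Bool.and_false]
    · simp only [oPe, fit_is (fit S ht 4 (by decide)) h1, fit_is (fit S ht 5 (by decide)) h2,
        beq_eq_false_iff_ne.2 (mt cd_inj.1 u), Bool.and_false]

theorem opPz : OpS fPz := by
  intro N Γ _ _
  refine ⟨oPz, ⟨p_const _, by unfold oPz; fun_prop⟩, fun wr σ E Γ' S l x tb p o h => ⟨?_, ?_⟩⟩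
  · intro h0 h1
    refine h.bit (b := true) S.bas fun t ht => ?_
    simp only [oPz, fit_bit (b := true) S.bas (fit S ht 0 (by decide)) h0, fit_is (fit S ht 1 (by decide)) h1,
      tbs_getD tb (show 0 < 512 by norm_num), beq_self_eq_true, Bool.and_self]
  · intro h0
    refine h.bit (b := false) S.bas fun t ht => ?_
    rcases h0 with h0 | ⟨c, u, h1⟩
    · simp only [oPz, fit_bit (b := false) S.bas (fit S ht 0 (by decide)) h0, Bool.false_and]
    · simp only [oPz, fit_is (fit S ht 1 (by decide)) h1, tbs_getD tb (show 0 < 512 by norm_num),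
        beq_eq_false_iff_ne.2 (mt cd_inj.1 u), Bool.and_false]

end Pool.Agent.PP.QL.I
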