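import Pool.Agent.MP_13199e_lc.QL.I.Spec

/-! PROJECT QL, block IMPL: the three gates of the purification. -/

set_option autoImplicit false

namespace Pool.Agent.PP.QL.I

open Pool.Agent.MP_13199e_lc Pool.Agent.PolyT Pool.Agent.H82 Function Env

namespace Pur

@[fun_prop] theorem p_nand {α : Type} [N487b59b3 α] {f g : α → ℕ} (hf : Poly f) (hg : Poly g) :
    Poly fun a => f a &&& g a :=
  Poly.congr (f := fun a => ofBits ((idx (f a).bits).map fun i =>
    ((f a).testBit i && (g a).testBit i))) (by fun_prop) fun a => by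
    simp only [← Nat.testBit_and]
    exact ofBits_map_idx _ (Nat.and_le_left.trans_lt (lt_two_pow_bits _))

/-- The three reads. -/
def rds : List LR := [(0, w0, true), (1, w0, true), (1, w0, false)]

theorem fits {N : Num} {Γ : Sg → List NP} {wr : Sg × Wn × NP → NP} {σ : Sg} {E : Env}
    {Γ' : List E.P} (S : Stt N Γ wr σ E Γ') {x : ℕ → NP → ℕ → V4} {p : E.P} {t : List (LR × ℕ)}
    (ht : Cpl (2 * E.e) rds (fun s w => x s (wr (σ, w, cp p))) t) :
    Fit (2 * E.e) true (x 0 (cp p)) (lk t (0, w0, true) 0) ∧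
      Fit (2 * E.e) true (x 1 (cp p)) (lk t (1, w0, true) 0) ∧
      Fit (2 * E.e) false (x 1 (cp p)) (lk t (1, w0, false) 0) := by
  have a := ht (0, w0, true) (by simp [rds])
  have b := ht (1, w0, true) (by simp [rds])
  have c := ht (1, w0, false) (by simp [rds])
  dsimp only at a b c
  rw [S.wr.l0] at a b c
  exact ⟨a, b, c⟩

theorem two {x a : V4} {b b' u v w : Bool} (h : Two x a b b') (hu : Fits (rd true x) u)
    (hv : Fits (rd true a) v) (hw : Fits (rd false a) w) :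
    (u = b ∧ (v = b' ∨ w = b')) ∨ (v = b ∧ w = b') := by
  rcases h with ⟨h1, h2 | h2⟩ | ⟨h1, h2⟩
  · exact Or.inl ⟨hu _ h1, Or.inl (hv _ h2)⟩
  · exact Or.inl ⟨hu _ h1, Or.inr (hw _ h2)⟩
  · exact Or.inr ⟨hv _ h1, hw _ h2⟩

theorem ex_two : ∀ x a : V4, (∀ b, rd false x = some b → a = ofB b) →
    (∃ b, Two x a b b) ∨ ∃ b, Two x a b (!b) := by
  unfold Two
  decide

end Pur

open Pur

theorem opCp : OpS fCp := by
  rintro N Γ - -
  refine ⟨⟨fun _ => [(0, w0, false)], fun a => lk a.2.2.2 (0, w0, false) 0⟩,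
    ⟨by fun_prop, by fun_prop⟩, fun wr σ E Γ' S l x tb p o h j hj b hb => h j hj b fun t ht => ?_⟩
  have a := ht _ List.mem_cons_self
  dsimp only at a ⊢
  rw [S.wr.l0] at a
  exact a.2 j hj b hb

theorem opMj : OpS fMj := by
  rintro N Γ - -
  refine ⟨⟨fun _ => rds, fun a =>
    (lk a.2.2.2 (0, w0, true) 0 &&& lk a.2.2.2 (1, w0, true) 0) ^^^
      (lk a.2.2.2 (0, w0, true) 0 &&& lk a.2.2.2 (1, w0, false) 0) ^^^
      (lk a.2.2.2 (1, w0, true) 0 &&& lk a.2.2.2 (1, w0, false) 0)⟩,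
    ⟨by fun_prop, by fun_prop⟩, fun wr σ E Γ' S l x tb p o h j hj b hb => h j hj b fun t ht => ?_⟩
  obtain ⟨a1, a2, a3⟩ := fits S ht
  have k := two hb (a1.2 j hj) (a2.2 j hj) (a3.2 j hj)
  simp only [Nat.testBit_xor, Nat.testBit_and]
  revert k
  generalize (lk t (0, w0, true) 0).testBit j = u
  generalize (lk t (1, w0, true) 0).testBit j = v
  generalize (lk t (1, w0, false) 0).testBit j = w
  clear hb
  revert u v w b
  decide

theorem opOk : OpS fOk := by
  rintro N Γ - -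
  refine ⟨⟨fun _ => rds, fun a =>
    (lk a.2.2.2 (0, w0, true) 0 == lk a.2.2.2 (1, w0, true) 0 &&
      lk a.2.2.2 (1, w0, true) 0 == lk a.2.2.2 (1, w0, false) 0).toNat⟩,
    ⟨by fun_prop, by fun_prop⟩, fun wr σ E Γ' S l x tb p o h =>
      ⟨fun c h0 h1 => h.bit (b := true) S.bas fun t ht => ?_,
        fun j hj b hb => h.bit (b := false) S.bas fun t ht => ?_⟩⟩ <;>
    obtain ⟨a1, a2, a3⟩ := fits S ht <;> dsimp only
  · rw [fit_is a1 h0, fit_is a2 h1, fit_is a3 h1]
    simp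
  · have k := two hb (a1.2 j hj) (a2.2 j hj) (a3.2 j hj)
    congr 1
    rw [Bool.and_eq_false_iff, beq_eq_false_iff_ne, beq_eq_false_iff_ne]
    by_contra n
    rw [not_or, not_not, not_not] at n
    rw [n.1, n.2] at k
    revert k
    generalize (lk t (1, w0, false) 0).testBit j = w
    clear hb
    revert w b
    decide

theorem purS : PurS := by
  intro E Γ l U t p m k h1 h2 h3
  refine ⟨fun c hc => ?_, ?_⟩
  · have a : Is (U 1 p) c := fun j hj => h1 j hj _ (by rw [hc j hj, rd_ofB])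
    exact ⟨fun j hj => h2 j hj _ (Or.inl ⟨by rw [hc j hj, rd_ofB],
      Or.inl (by rw [a j hj, rd_ofB])⟩), h3.1 c hc a⟩
  · refine or_iff_not_imp_right.2 fun n => ?_
    have e : ∀ j : Fin (2 * E.e), ∃ b, m j = ofB b := fun j =>
      (ex_two _ _ (h1 j j.2)).elim (fun ⟨b, hb⟩ => ⟨b, h2 j j.2 b hb⟩)
        fun ⟨b, hb⟩ => absurd (h3.2 j j.2 b hb) n
    choose f hf using e
    refine ⟨E.cd.symm ⟨Nat.ofBits f, Nat.ofBits_lt_two_pow f⟩, fun j hj => ?_⟩
    rw [Equiv.apply_symm_apply, Nat.testBit_ofBits_lt f j hj]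
    exact hf ⟨j, hj⟩

end Pool.Agent.PP.QL.I
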