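import Pool.Agent.MP_13199e_lc.QL.I.Spec

/-! PROJECT QL, block IMPL: the two sampler gates. -/

set_option autoImplicit false

namespace Pool.Agent.PP.QL.I

open Pool.Agent.MP_13199e_lc Pool.Agent.PolyT Pool.Agent.H82 Function Env

theorem se_pow {α : Type} [N487b59b3 α] {f : α → ℕ} (h : Poly f) (n : ℕ) :
    Poly fun a => f a ^ n := by
  induction n with
  | zero => exact p_const 1
  | succ n ih => exact ih.mul h

theorem se_not {a b : ℕ} (c : Bool) (h : c = true ↔ b ≤ a) : (!ltB a b).toNat = c.toNat := by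
  cases c
  · rw [ltB_iff.2 (not_le.1 fun u => Bool.noConfusion (h.2 u))]; rfl
  · rw [ltB_false_iff.2 (h.1 rfl)]; rfl

theorem opSe : OpS fSe := fun N Γ _ hΓ => by
  refine ⟨⟨fun a => (Γ a.1).map fun g => (0, wT g, false), fun a =>
    (!ltB (Γ a.1.1).length (2 * a.1.1.2.length ^ 32 *
      (Γ a.1.1).countP fun g => !(lk a.2.2.2 (0, wT g, false) 0).testBit 0)).toNat⟩,
    ⟨by fun_prop, p_toNat (p_not (p_ltB (by fun_prop) (p_mul (p_mul (p_const 2)
      (se_pow (by fun_prop) 32)) (by fun_prop))))⟩, fun wr σ E Γ' S l x tb p o h => ?_⟩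
  have hl : (0 : ℝ) < Γ'.length := by exact_mod_cast List.length_pos_iff.2 S.ne
  have hq : ((σ.2.length : ℕ) : ℝ) = E.q := by rw [S.num.fld, Env.q]; norm_cast
  have q0 : 0 < E.q := by unfold Env.q; positivity
  have key : ∀ t, Cpl (2 * E.e) ((Γ σ).map fun g => (0, wT g, false))
      (fun s w => x s (wr (σ, w, cp p))) t → ∀ s : Fin Γ'.length, ∀ b,
      x 0 (cp (p + Γ'[s])) 0 = ofB b → (lk t (0, wT (cp Γ'[s]), false) 0).testBit 0 = b :=
    fun t ht s b e => fit_bit S.bas (ht _ (List.mem_map.2 ⟨_, S.gam ▸ List.mem_map_of_mem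
      (List.getElem_mem s.2), rfl⟩)) (by simpa only [S.wr.lT] using e)
  have cnt := fun t : List (LR × ℕ) =>
    pr_fin Γ' fun g => !(lk t (0, wT (cp g), false) 0).testBit 0
  refine ⟨fun H => h.bit (b := true) S.bas fun t ht => se_not _ (iff_of_true rfl ?_),
    fun H => h.bit (b := false) S.bas fun t ht => se_not _ (iff_of_false (by simp) ?_)⟩ <;>
    simp only [S.gam, List.countP_map, List.length_map, comp_def]
  · have := (cnt t).symm.trans_le ((pr_mono fun s u e => by
      rw [key t ht s true e] at u; exact Bool.noConfusion u).trans H)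
    rw [Env.sm, div_div, div_le_div_iff₀ hl (by positivity), ← hq] at this
    rw [mul_comm, mul_comm 2]
    exact_mod_cast this.trans_eq (one_mul _)
  · have := (H.trans_le (pr_mono fun s e => by rw [key t ht s false e]; rfl)).trans_eq (cnt t)
    rw [Env.sm, div_div, div_lt_div_iff₀ (by positivity) hl, ← hq] at this
    rw [not_le, mul_comm, mul_comm 2]
    exact_mod_cast (one_mul _).symm.trans_lt this

theorem opUu : OpS fUu := fun N Γ _ hΓ => by
  refine ⟨⟨fun a => (List.range 64).flatMap fun k => (Γ a.1).map fun g => (k, wT g, true), fun a =>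
    (!ltB (36 * ((List.range 64).flatMap fun k => (Γ a.1.1).map fun g =>
      ((k, wT g, true) : LR)).countP fun r => (lk a.2.2.2 r 0).testBit 0)
      ((a.1.2 + 10) * (64 * (Γ a.1.1).length))).toNat⟩,
    ⟨by fun_prop, by fun_prop⟩, fun wr σ E Γ' S n x tb p o h => ?_⟩
  have hl : (0 : ℝ) < 64 * Γ'.length := by
    have : (0 : ℝ) < Γ'.length := by exact_mod_cast List.length_pos_iff.2 S.ne
    positivity
  have e : ((List.range 64).flatMap fun k => (Γ σ).map fun g => ((k, wT g, true) : LR)) =
      (List.finRange 64 ×ˢ List.finRange Γ'.length).map fun y =>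
        ((y.1, wT (cp Γ'[y.2]), true) : LR) := by
    have : Γ'.map cp = (List.finRange Γ'.length).map fun s => cp Γ'[s] := by
      conv_lhs => rw [← List.ofFn_getElem (xs := Γ'), List.ofFn_eq_map, List.map_map]
      rfl
    rw [S.gam, this, ← List.map_coe_finRange_eq_range, List.flatMap_map]
    refine Eq.trans ?_ List.map_flatMap.symm
    simp only [List.map_map, comp_def]
  have key : ∀ t, Cpl (2 * E.e) ((List.range 64).flatMap fun k => (Γ σ).map fun g =>
      (k, wT g, true)) (fun s w => x s (wr (σ, w, cp p))) t → ∀ y : Fin 64 × Fin Γ'.length, ∀ b,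
      rd true (x y.1 (cp (p + Γ'[y.2])) 0) = some b →
      (lk t (y.1, wT (cp Γ'[y.2]), true) 0).testBit 0 = b := fun t ht y b u =>
    fit_rd S.bas (ht _ (e ▸ List.mem_map_of_mem (List.mem_product.2
      ⟨List.mem_finRange y.1, List.mem_finRange y.2⟩))) (by simpa only [S.wr.lT] using u)
  have cnt := fun t : List (LR × ℕ) => pr_list
    ((List.nodup_finRange 64).product (List.nodup_finRange Γ'.length))
    (fun y => List.mem_product.2 ⟨List.mem_finRange y.1, List.mem_finRange y.2⟩)
    fun y => (lk t (y.1, wT (cp Γ'[y.2]), true) 0).testBit 0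
  simp only [List.length_product, List.length_finRange, Nat.cast_mul, Nat.cast_ofNat] at cnt
  refine ⟨fun H => h.bit (b := true) S.bas fun t ht => se_not _ (iff_of_true rfl ?_),
    fun H => h.bit (b := false) S.bas fun t ht => se_not _ (iff_of_false (by simp) ?_)⟩ <;>
    rw [e, S.gam] <;> simp only [List.countP_map, List.length_map, comp_def]
  · have := (H.trans (pr_mono fun y u => key t ht y true u)).trans_eq (cnt t)
    rw [div_le_div_iff₀ (by norm_num) hl] at this
    rw [mul_comm 36]
    exact_mod_cast this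
  · have := (cnt t).symm.trans_lt ((pr_mono fun y u v => by
      rw [key t ht y false v] at u; exact Bool.noConfusion u).trans_lt H)
    rw [div_lt_div_iff₀ hl (by norm_num)] at this
    rw [not_le, mul_comm 36]
    exact_mod_cast this

end Pool.Agent.PP.QL.I
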