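import Pool.Agent.MP_13199e_lc.QL.I.Spec

/-! PROJECT QL, row I-SEL: the selection of a source and the votes. -/

set_option autoImplicit false

namespace Pool.Agent.PP.QL.I

open Pool.Agent.MP_13199e_lc Pool.Agent.PolyT Pool.Agent.H82 Function Env

namespace SelA

section
variable {α : Type} [N487b59b3 α]

@[fun_prop] theorem p_ent {t : List (List ℕ)} {u v : α → ℕ} (hu : Poly u) (hv : Poly v) :
    Poly fun a => T.ent t (u a) (v a) := by
  unfold T.ent; fun_prop

@[fun_prop] theorem p_quad {u v : α → ℕ} (hu : Poly u) (hv : Poly v) :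
    Poly fun a => T.quad (u a) (v a) :=
  Poly.congr (f := fun a => bif ltB (v a) 9 then (bif ltB (u a) 9 then 2 else 3)
    else (bif ltB (u a) 9 then 1 else 0)) (by fun_prop) fun a => by
      unfold T.quad ltB
      by_cases h : v a < 9 <;> by_cases k : u a < 9 <;> simp [h, k, ← not_lt]

@[fun_prop] theorem p_src {i u v : α → ℕ} (hi : Poly i) (hu : Poly u) (hv : Poly v) :
    Poly fun a => T.src (i a) (u a) (v a) :=
  Poly.congr (f := fun a => bif eqB (T.ent T.tN (u a) (v a)) 4 then
    (bif eqB (i a) 0 then 4 else i a) else (i a + 4 - T.ent T.tN (u a) (v a)) % 4) (by fun_prop)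
    fun a => by simp [T.src, eqB, Bool.cond_eq_ite]

@[fun_prop] theorem p_lab {u v : α → ℕ} {e z : α → Bool} (hu : Poly u) (hv : Poly v) (he : Poly e)
    (hz : Poly z) : Poly fun a => T.lab (u a) (v a) (e a) (z a) :=
  Poly.congr (f := fun a => bif z a && !eqB (T.ent T.tZ (u a) (v a)) 4 then T.ent T.tZ (u a) (v a)
    else bif e a then T.ent T.t1 (u a) (v a) else (T.quad (u a) (v a) + 2) % 4) (by fun_prop)
    fun a => by simp [T.lab, eqB, Bool.cond_eq_ite]

@[fun_prop] theorem p_vote {c : Bool} {u v : α → ℕ} {e z : α → Bool} (hu : Poly u) (hv : Poly v)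
    (he : Poly e) (hz : Poly z) : Poly fun a => T.vote c (u a) (v a) (e a) (z a) :=
  Poly.congr (f := fun a => bif c then ltB (T.lab (u a) (v a) (e a) (z a)) 2
    else eqB (T.lab (u a) (v a) (e a) (z a) % 3) 0) (by fun_prop) fun _ => rfl

end

/-- The value of the read number `n`. -/
def vl (t : List (LR × ℕ)) (n : ℕ) : ℕ := lk t (n, w0, false) 0

/-- The number of ones among 18 reads from `m` on. -/
def ct (t : List (LR × ℕ)) (m : ℕ) : ℕ := (List.range 18).countP fun n => (vl t (m + n)).testBit 0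

@[fun_prop] theorem p_vl {α : Type} [N487b59b3 α] {t : α → List (LR × ℕ)} {n : α → ℕ}
    (ht : Poly t) (hn : Poly n) : Poly fun a => vl (t a) (n a) := by
  unfold vl; fun_prop

@[fun_prop] theorem p_ct {α : Type} [N487b59b3 α] {t : α → List (LR × ℕ)} {m : ℕ} (ht : Poly t) :
    Poly fun a => ct (t a) m := by
  unfold ct; fun_prop

/-- The reads. -/
def rds : List LR := (List.range 41).map fun n => (n, w0, false)

section
variable {N : Num} {Γ : Sg → List NP} {wr : Sg × Wn × NP → NP} {σ : Sg} {E : Env} {Γ' : List E.P}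
  {x : ℕ → NP → ℕ → V4} {p : E.P} {t : List (LR × ℕ)}

theorem fit_vl (h : Stt N Γ wr σ E Γ')
    (ht : Cpl (2 * E.e) rds (fun s w => x s (wr (σ, w, cp p))) t) {n : ℕ} (hn : n < 41) :
    Fit (2 * E.e) false (x n (cp p)) (vl t n) := by
  have := ht (n, w0, false) (List.mem_map.2 ⟨n, List.mem_range.2 hn, rfl⟩)
  simp only [h.wr.l0] at this
  exact this

theorem adm_ct (h : Stt N Γ wr σ E Γ')
    (ht : Cpl (2 * E.e) rds (fun s w => x s (wr (σ, w, cp p))) t) {m : ℕ} (hm : m ≤ 18) :
    T.Adm (fun n => x (m + n) (cp p) 0) (ct t m) :=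
  ⟨_, fun _ hn => fit_pos h.bas (fit_vl h ht (by omega)), rfl⟩

theorem adm_ct0 (h : Stt N Γ wr σ E Γ')
    (ht : Cpl (2 * E.e) rds (fun s w => x s (wr (σ, w, cp p))) t) :
    T.Adm (fun n => x n (cp p) 0) (ct t 0) := by
  simpa only [zero_add] using adm_ct h ht (Nat.zero_le _)

end

/-- The choice among four values. -/
def ch (s a b c d : ℕ) : ℕ :=
  bif eqB s 4 then a else bif eqB s 1 then b else bif eqB s 3 then c else d

@[fun_prop] theorem p_ch {α : Type} [N487b59b3 α] {s a b c d : α → ℕ} (hs : Poly s) (ha : Poly a)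
    (hb : Poly b) (hc : Poly c) (hd : Poly d) : Poly fun x => ch (s x) (a x) (b x) (c x) (d x) := by
  unfold ch; fun_prop

theorem ch_eq {s a b c d e : ℕ}
    (h : if s = 4 then a = e else if s = 1 then b = e else if s = 3 then c = e else d = e) :
    ch s a b c d = e := by
  simp only [ch, eqB, Bool.cond_decide]
  split_ifs at h ⊢ <;> exact h

/-- The selection. -/
def oSel : Op where
  rd _ := rds
  fn a := ch (T.src a.1.2 (ct a.2.2.2 0) (ct a.2.2.2 18)) (a.2.2.1.getD 0 0) (vl a.2.2.2 37)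
    (vl a.2.2.2 38) (vl a.2.2.2 36)

/-- The vote. -/
def oVt (c : Bool) : Op where
  rd _ := rds
  fn a := (T.vote c (ct a.2.2.2 0) (ct a.2.2.2 18)
    ((vl a.2.2.2 (36 + T.quad (ct a.2.2.2 0) (ct a.2.2.2 18))).testBit 0)
    ((vl a.2.2.2 40).testBit 0)).toNat

end SelA

open SelA

theorem opSel : OpS fSel := fun N Γ _ _ => ⟨oSel, ⟨by unfold oSel; fun_prop,
  by unfold oSel; fun_prop⟩, fun wr σ E Γ' h l x tb p o hs c k _ => hs.is fun t ht => by
    have := k _ _ (adm_ct0 h ht) (adm_ct h ht le_rfl)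
    unfold oSel
    dsimp only
    refine ch_eq ?_
    split_ifs at this ⊢
    · rw [tbs_getD tb (by norm_num), this]
    · exact fit_is (fit_vl h ht (by norm_num)) this
    · exact fit_is (fit_vl h ht (by norm_num)) this
    · exact fit_is (fit_vl h ht (by norm_num)) this⟩

theorem opVt (c : Bool) : OpS (fVt c) := fun N Γ _ _ => ⟨oVt c, ⟨by unfold oVt; fun_prop,
  by unfold oVt; fun_prop⟩, fun wr σ E Γ' h l x tb p o hs s k => hs.bit h.bas fun t ht => by
    have q : T.quad (ct t 0) (ct t 18) < 4 := by unfold T.quad; split_ifs <;> omega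
    exact congrArg Bool.toNat (k _ _ _ _ (adm_ct0 h ht) (adm_ct h ht le_rfl)
      (fit_pos h.bas (fit_vl h ht (n := 36 + T.quad (ct t 0) (ct t 18)) (by omega)))
      (fit_pos h.bas (fit_vl h ht (by norm_num))))⟩

end Pool.Agent.PP.QL.I
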