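import Pool.Agent.MP_13199e_lc.QL.I.Spec

/-! PROJECT QL, block IMPL: the substitution gate, the output gate and the test bit. -/

set_option autoImplicit false

namespace Pool.Agent.PP.QL.I

open Pool.Agent.MP_13199e_lc Pool.Agent.PolyT Pool.Agent.H82 Function Env

theorem opSub : OpS fSub := by
  rintro N Γ ⟨p1, p2, -⟩ -
  refine ⟨⟨fun s => [(0, w0, false), (0, wT (uv s.1.1.length s.2, zu, zu), false)], fun a =>
    lk a.2.2.2 (0, w0, false) 0 ^^^ N.mul (a.1.1,
      N.hi (a.1.1, a.1.2, a.2.1.1) ^^^ N.hi (a.1.1, a.1.2, a.2.1.2),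
      lk a.2.2.2 (0, w0, false) 0 ^^^
        lk a.2.2.2 (0, wT (uv a.1.1.1.length a.1.2, zu, zu), false) 0)⟩,
    ⟨by fun_prop, by fun_prop⟩, fun wr σ E Γ' S l x tb p o h hl c c' hc hc' => h.is fun t ht => ?_⟩
  have a := ht _ List.mem_cons_self
  have b := ht _ (List.mem_cons_of_mem _ List.mem_cons_self)
  dsimp only at a b ⊢
  rw [S.wr.l0] at a
  rw [S.num.dim] at b ⊢
  rw [S.wr.lF] at b
  rw [fit_is a hc, fit_is b hc', S.num.hi l hl, S.num.hi l hl, ← E.add, ← E.add, S.num.mul,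
    ← E.add, Env.sub]

theorem opOut : OpS fOut := by
  rintro N Γ ⟨-, -, -, p4, -⟩ -
  refine ⟨⟨fun s => (N.al s.1).flatMap fun a => (N.al s.1).map fun b => (0, wS (a, b), false),
    fun a => lk a.2.2.2 (0, wS a.2.1.2, false) 0⟩, ⟨by fun_prop, by fun_prop⟩,
    fun wr σ E Γ' S l x tb p o h c hc => h.is fun t ht => ?_⟩
  obtain ⟨la, e, -, m⟩ := S.num.al
  have k : ∀ a : E.A, ca a ∈ N.al σ := fun a => e ▸ List.mem_map_of_mem (m a)
  have a := ht (0, wS (cu p.2.2), false)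
    (List.mem_flatMap.2 ⟨_, k p.2.2.1, List.mem_map.2 ⟨_, k p.2.2.2, rfl⟩⟩)
  have z : p.2.2 + p.2.2 = 0 :=
    Prod.ext (funext fun _ => E.add_self _) (funext fun _ => E.add_self _)
  dsimp only at a ⊢
  rw [S.wr.lS, z] at a
  exact fit_is a hc

theorem opTv : OpS fTv := by
  rintro N Γ - -
  refine ⟨⟨fun _ => [(0, w0, false), (1, w0, false), (2, w0, false)], fun a =>
    ((lk a.2.2.2 (0, w0, false) 0).testBit 0 && lk a.2.2.2 (1, w0, false) 0 == 0 &&
      lk a.2.2.2 (2, w0, false) 0 == 0).toNat⟩, ⟨by fun_prop, by fun_prop⟩,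
    fun wr σ E Γ' S l x tb p o h => ?_⟩
  have k : ∀ t, Cpl (2 * E.e) [(0, w0, false), (1, w0, false), (2, w0, false)]
      (fun s w => x s (wr (σ, w, cp p))) t → ∀ i < 3,
        Fit (2 * E.e) false (x i (cp p)) (lk t (i, w0, false) 0) := fun t ht i hi => by
    have := ht (i, w0, false) (by interval_cases i <;> simp)
    dsimp only at this
    rwa [S.wr.l0] at this
  have n : ∀ {c : E.K}, c ≠ 0 → ((E.cd c : ℕ) == 0) = false := fun hc =>
    beq_false_of_ne fun e => hc (cd_inj.1 (e.trans E.cd_zero.symm))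
  refine ⟨fun a b c => h.bit (b := true) S.bas fun t ht => ?_,
    fun a => h.bit (b := false) S.bas fun t ht => ?_⟩ <;> dsimp only
  · rw [fit_bit (b := true) S.bas (k t ht 0 (by omega)) a, fit_is (k t ht 1 (by omega)) b,
      fit_is (k t ht 2 (by omega)) c, E.cd_zero]
    rfl
  · rcases a with a | ⟨c, hc, a⟩ | ⟨c, hc, a⟩
    · rw [fit_bit (b := false) S.bas (k t ht 0 (by omega)) a]
      rfl
    · rw [fit_is (k t ht 1 (by omega)) a, n hc, Bool.and_false, Bool.false_and]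
    · rw [fit_is (k t ht 2 (by omega)) a, n hc, Bool.and_false]

end Pool.Agent.PP.QL.I
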