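import Pool.Agent.MP_13199e_lc.QL.I.Spec

/-! PROJECT QL, block IMPL: the conjunction of the tests. -/

set_option autoImplicit false

namespace Pool.Agent.PP.QL.I

open Pool.Agent.MP_13199e_lc Pool.Agent.PolyT Pool.Agent.H82 Function Env

namespace Tt

variable (N : Num) (σ : Sg)

/-- The codes of all pairs of vectors. -/
def prs : List NA := (N.al σ).flatMap fun a => (N.al σ).map fun b => (a, b)

/-- The reads. -/
def rds : List LR :=
  ((idx (true :: σ.1)).flatMap fun l => (2 * l + 1, w0, false) :: (2 * l, w0, false) ::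
    (2 * l, wT (uv σ.1.length l, zu, zu), false) :: [false, true].flatMap fun s =>
      [false, true].flatMap fun v => (N.al σ).map fun a => (2 * l, wV s l v a, false)) ++
  (prs N σ).map fun u => (0, wT (0, zu, u), false)

variable (u : NA × NA) (t : List (LR × ℕ))

def oks : Bool := (idx (true :: σ.1)).all fun l => (lk t (2 * l + 1, w0, false) 0).testBit 0

def fst : Bool := (prs N σ).all fun γ =>
  eqB (lk t (0, wT (0, zu, γ), false) 0) (lk t (0, w0, false) 0)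

def sub : Bool := (idx σ.1).all fun l =>
  eqB (lk t (2 * (l + 1), w0, false) 0) (lk t (2 * l, w0, false) 0 ^^^
    N.mul (σ, N.hi (σ, l, u.1) ^^^ N.hi (σ, l, u.2),
      lk t (2 * l, w0, false) 0 ^^^ lk t (2 * l, wT (uv σ.1.length l, zu, zu), false) 0))

def itp : Bool := (idx (true :: σ.1)).all fun l => [false, true].all fun s =>
  [false, true].all fun v => (N.al σ).all fun ρ =>
    eqB (xs ((idx σ.2).tail.map fun τ =>
      lk t (2 * l, wV s l v (ρ.map fun n => N.mul (σ, τ, n)), false) 0))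
      (lk t (2 * l, w0, false) 0)

/-- The gate. -/
def op : Op where
  rd a := rds N a.1
  fn a := (oks a.1.1 a.2.2.2 && (fst N a.1.1 a.2.2.2 &&
    (sub N a.1.1 a.2.1 a.2.2.2 && itp N a.1.1 a.2.2.2))).toNat

theorem pol (h : N.Pol) : (op N).Pol := by
  obtain ⟨h1, h2, h3, h4, h5⟩ := h
  have a0 : Poly (prs N) := by unfold prs; fun_prop
  constructor
  · unfold op rds
    fun_prop
  · unfold op oks fst sub itp
    fun_prop

variable {N σ t} {E : Env}

theorem mem_al (h : N.Ok σ E) {x : List ℕ} : x ∈ N.al σ ↔ ∃ a : E.A, ca a = x := by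
  obtain ⟨l, e, -, k⟩ := h.al
  simp [e, k]

theorem mem_prs (h : N.Ok σ E) {x : NA} : x ∈ prs N σ ↔ ∃ γ : E.A × E.A, cu γ = x := by
  simp only [prs, List.mem_flatMap, List.mem_map, mem_al h]
  exact ⟨fun ⟨_, ⟨a, e⟩, _, ⟨b, e'⟩, k⟩ => ⟨(a, b), by rw [← k, ← e, ← e']; rfl⟩,
    fun ⟨γ, e⟩ => ⟨_, ⟨γ.1, rfl⟩, _, ⟨γ.2, rfl⟩, e⟩⟩

theorem mem_rds (h : N.Ok σ E) {l : ℕ} (hl : l ≤ E.D) {r : LR}
    (hr : r = (2 * l + 1, w0, false) ∨ r = (2 * l, w0, false) ∨
      r = (2 * l, wT (uv E.D l, zu, zu), false) ∨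
      ∃ s v, ∃ a : E.A, r = (2 * l, wV s l v (ca a), false)) : r ∈ rds N σ := by
  refine List.mem_append_left _ (List.mem_flatMap.2 ⟨l, by simp [h.dim, hl], ?_⟩)
  simp only [List.mem_cons, h.dim]
  refine hr.imp_right (Or.imp_right (Or.imp_right fun ⟨s, v, a, e⟩ => ?_))
  exact List.mem_flatMap.2 ⟨s, by cases s <;> simp, List.mem_flatMap.2 ⟨v, by cases v <;> simp,
    List.mem_map.2 ⟨_, (mem_al h).2 ⟨a, rfl⟩, e.symm⟩⟩⟩

variable {Γ : Sg → List NP} {wr : Sg × Wn × NP → NP} {Γ' : List E.P} {x : ℕ → NP → ℕ → V4}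
  {p : E.P}

theorem oks_iff (h : N.Ok σ E) :
    oks σ t = true ↔ ∀ l ≤ E.D, (lk t (2 * l + 1, w0, false) 0).testBit 0 = true := by
  simp [oks, h.dim]

theorem key (h : Stt N Γ wr σ E Γ') {G : ℕ → E.P → E.K}
    (ht : Cpl (2 * E.e) (rds N σ) (fun s w => x s (wr (σ, w, cp p))) t)
    (hG : ∀ l ≤ E.D, ∀ r, Nr l p r → Is (x (2 * l) (cp r)) (G l r)) :
    (fst N σ t && (sub N σ (cu p.2.1, cu p.2.2) t && itp N σ t)) = true ↔ Chk G p := by
  have a0 : ∀ l ≤ E.D, lk t (2 * l, w0, false) 0 = E.cd (G l p) := fun l hl =>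
    fit_is (ht _ (mem_rds h.num hl (.inr (.inl rfl))))
      (by simpa only [h.wr.l0] using hG l hl p (.inl rfl))
  have aF : ∀ l ≤ E.D, lk t (2 * l, wT (uv E.D l, zu, zu), false) 0 = E.cd (G l (flp l p)) :=
    fun l hl => fit_is (ht _ (mem_rds h.num hl (.inr (.inr (.inl rfl)))))
      (by simpa only [h.wr.lF] using hG l hl _ (.inr (.inl rfl)))
  have aV : ∀ l ≤ E.D, ∀ s v (a : E.A),
      lk t (2 * l, wV s l v (ca a), false) 0 = E.cd (G l (vw s l v a p)) := fun l hl s v a =>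
    fit_is (ht _ (mem_rds h.num hl (.inr (.inr (.inr ⟨s, v, a, rfl⟩)))))
      (by simpa only [h.wr.lV] using hG l hl _ (.inr (.inr (.inl ⟨s, v, a, rfl⟩))))
  have aC : ∀ γ : E.A × E.A,
      lk t (0, wT (0, zu, cu γ), false) 0 = E.cd (G 0 (p.1, p.2.1, p.2.2 + γ)) := fun γ => by
    have e := h.wr.lC 0 γ p
    rw [h.nb.zero, add_zero] at e
    exact fit_is (ht _ (List.mem_append_right _ (List.mem_map.2 ⟨_, (mem_prs h.num).2 ⟨γ, rfl⟩, rfl⟩)))
      (by simpa only [e] using hG 0 E.D.zero_le _ (.inr (.inr (.inr ⟨rfl, γ, rfl⟩))))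
  have b1 : fst N σ t = true ↔ ∀ γ, G 0 (p.1, p.2.1, p.2.2 + γ) = G 0 p := by
    simp only [fst, List.all_eq_true, mem_prs h.num, eqB_iff, forall_exists_index,
      forall_apply_eq_imp_iff, aC, a0 0 E.D.zero_le, cd_inj]
  have b2 : sub N σ (cu p.2.1, cu p.2.2) t = true ↔
      ∀ l < E.D, G (l + 1) p = Env.sub l p (G l p) (G l (flp l p)) := by
    simp only [sub, List.all_eq_true, mem_idx, h.num.dim, eqB_iff]
    refine forall₂_congr fun l hl => ?_
    rw [a0 _ hl, a0 _ hl.le, aF _ hl.le, h.num.hi l hl, h.num.hi l hl, ← E.add, ← E.add,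
      h.num.mul, ← E.add, cd_inj, Env.sub]
  have b3 : itp N σ t = true ↔ ∀ l ≤ E.D, ∀ s v ρ, Env.itp s l v ρ (G l) p = G l p := by
    have e : ∀ b : Bool, b ∈ [false, true] := by decide
    simp only [itp, List.all_eq_true, mem_idx, List.length_cons, h.num.dim, Nat.lt_succ_iff, e,
      mem_al h.num, eqB_iff, forall_exists_index, forall_apply_eq_imp_iff, forall_const]
    refine forall₂_congr fun l hl => forall₃_congr fun s v ρ => ?_
    rw [xs_nz h.num.fld _ (fun τ => G l (vw s l v (τ • ρ) p))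
      fun τ _ => by rw [← h.nb.cmul N σ h.num, aV l hl], a0 l hl, cd_inj, Env.itp]
  rw [Bool.and_eq_true, Bool.and_eq_true, b1, b2, b3]
  exact ⟨fun k => ⟨k.1, k.2.1, k.2.2⟩, fun k => ⟨k.1, k.2, k.3⟩⟩

end Tt

open Tt in
theorem opTot : OpS fTot := fun N Γ hN _ => ⟨op N, pol N hN, fun wr σ E Γ' h n x tb p o hs => by
  have ok : ∀ t, Cpl (2 * E.e) (rds N σ) (fun s w => x s (wr (σ, w, cp p))) t → ∀ l ≤ E.D, ∀ b,
      x (2 * l + 1) (cp p) 0 = ofB b → (lk t (2 * l + 1, w0, false) 0).testBit 0 = b :=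
    fun t ht l hl b k => fit_bit h.bas (ht _ (mem_rds h.num hl (.inl rfl)))
      (by simpa only [h.wr.l0] using k)
  refine ⟨fun G h1 h2 h3 => hs.bit (b := true) h.bas fun t ht => ?_,
    fun l hl h1 => hs.bit (b := false) h.bas fun t ht => ?_,
    fun G h2 h3 => hs.bit (b := false) h.bas fun t ht => ?_⟩ <;> refine congrArg Bool.toNat ?_
  · exact Bool.and_eq_true_iff.2 ⟨(oks_iff h.num).2 fun l hl => ok t ht l hl true (h1 l hl),
      (key h ht h2).2 h3⟩
  · exact Bool.and_eq_false_iff.2 (.inl (Bool.eq_false_iff.2 fun k =>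
      Bool.false_ne_true ((ok t ht l hl false h1).symm.trans ((oks_iff h.num).1 k l hl))))
  · exact Bool.and_eq_false_iff.2 (.inr (Bool.eq_false_iff.2 fun k => h3 ((key h ht h2).1 k)))⟩

end Pool.Agent.PP.QL.I
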