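import Pool.Agent.MP_13199e_lc.QL.I.Spec

/-! PROJECT QL, row I-V0: the first gate of a step. -/

set_option autoImplicit false

namespace Pool.Agent.PP.QL.I

open Pool.Agent.MP_13199e_lc Pool.Agent.PolyT Pool.Agent.H82 Function Env

namespace V0

/-- The read of the input `j`. -/
def nm (σ : Sg) (d j : ℕ) (u : NA) : LR :=
  (j, wT (bif j == 1 then uv σ.1.length d else 0, zu, u), false)

@[fun_prop] theorem p_nm {α : Type} [N487b59b3 α] {σ : α → Sg} {d j : α → ℕ} {u : α → NA}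
    (hσ : Poly σ) (hd : Poly d) (hj : Poly j) (hu : Poly u) :
    Poly fun a => nm (σ a) (d a) (j a) (u a) := by
  unfold nm; fun_prop

/-- The product over a list. -/
def pd (N : Num) (σ : Sg) (F : ℕ → ℕ) (l : List ℕ) : ℕ :=
  l.foldr (fun j r => N.mul (σ, F j, r)) 1

theorem p_pd {α : Type} [N487b59b3 α] {N : Num} (hN : Poly N.mul) {σ : α → Sg} {F : α → ℕ → ℕ}
    (hσ : Poly σ) (hF : ∀ j, Poly fun a => F a j) (l : List ℕ) :
    Poly fun a => pd N (σ a) (F a) l := by
  induction l with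
  | nil => exact p_const 1
  | cons j l ih =>
    have := hF j
    show Poly fun a => N.mul (σ a, F a j, pd N (σ a) (F a) l)
    fun_prop

theorem pd_eq {N : Num} {σ : Sg} {E : Env} (h : N.Ok σ E) {F : ℕ → ℕ} {f : ℕ → E.K} {l : List ℕ}
    (e : ∀ j ∈ l, F j = E.cd (f j)) : pd N σ F l = E.cd (l.map f).prod := by
  induction l with
  | nil => exact E.one.symm
  | cons j l ih =>
    rw [List.map_cons, List.prod_cons, ← h.mul, ← ih fun j hj => e j (by simp [hj]),
      ← e j (by simp)]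
    rfl

/-- The polynomial of the table on codes. -/
def pn (N : Num) (n : ℕ) (σ : Sg) (t : List ℕ) (v : ℕ → ℕ) : ℕ :=
  xs ((List.range n).map fun a => N.mul (σ, t.getD a 0,
    pd N σ (fun j => v j ^^^ (a.testBit j).toNat ^^^ 1) (List.range 9)))

theorem p_pn {α : Type} [N487b59b3 α] {N : Num} (hN : Poly N.mul) (n : ℕ) {σ : α → Sg}
    {t : α → List ℕ} {v : α → ℕ → ℕ} (hσ : Poly σ) (ht : Poly t) (hv : ∀ j, Poly fun a => v a j) :
    Poly fun a => pn N n (σ a) (t a) (v a) := by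
  refine p_xs (p_map ?_ (p_const _))
  have := p_pd (α := α × ℕ) hN (σ := fun x => σ x.1)
    (F := fun x j => v x.1 j ^^^ (x.2.testBit j).toNat ^^^ 1) (by fun_prop)
    (fun j => by have := hv j; fun_prop) (List.range 9)
  fun_prop

theorem pn_eq {N : Num} {σ : Sg} {E : Env} (h : N.Ok σ E) (hn : Nb E) {n : ℕ} {t : List ℕ}
    {V : ℕ → ℕ} {tb v : ℕ → E.K} (ht : ∀ a < n, t.getD a 0 = E.cd (tb a))
    (e : ∀ j < 9, V j = E.cd (v j)) : pn N n σ t V = E.cd (∑ a ∈ Finset.range n,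
      tb a * ∏ j ∈ Finset.range 9, (v j + bt (a.testBit j) + 1)) := by
  rw [← xs_range]
  refine congrArg xs (List.map_congr_left fun a ha => ?_)
  rw [← h.mul, ← ht a (List.mem_range.1 ha), ← List.toFinset_range,
    List.prod_toFinset _ List.nodup_range, ← pd_eq h fun j hj => ?_]
  rw [E.add, E.add, E.one, hn.bt, e j (List.mem_range.1 hj)]

/-- The gate. -/
def op (N : Num) : Op where
  rd x := (List.range 9).flatMap fun j => (N.al x.1).flatMap fun a => (N.al x.1).map fun b =>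
    nm x.1 x.2 j (a, b)
  fn x := pn N 512 x.1.1 x.2.2.1 fun j => lk x.2.2.2 (nm x.1.1 x.1.2 j x.2.1.2) 0

theorem pol {N : Num} (h : N.Pol) : (op N).Pol := by
  obtain ⟨h1, -, -, h4, -⟩ := h
  refine ⟨by unfold op; fun_prop, ?_⟩
  dsimp only [op]
  generalize 512 = n
  exact p_pn h1 n (by fun_prop) (by fun_prop) fun j => by fun_prop

end V0

open V0 in
theorem opV0 : OpS fV0 := by
  refine fun N Γ hN _ => ⟨op N, pol hN, fun wr σ E Γ' S d x tb p o h v hv => h.is fun t ht => ?_⟩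
  obtain ⟨la, h1, -, h2⟩ := S.num.al
  have e : ∀ j < 9, lk t (nm σ d j (cu p.2.2)) 0 = E.cd (v j) := fun j hj => by
    refine fit_is (ht _ (List.mem_flatMap.2 ⟨j, List.mem_range.2 hj, List.mem_flatMap.2
      ⟨_, h1 ▸ List.mem_map_of_mem (h2 p.2.2.1), List.mem_map.2
        ⟨_, h1 ▸ List.mem_map_of_mem (h2 p.2.2.2), rfl⟩⟩⟩)) ?_
    have k : (bif j == 1 then uv σ.1.length d else 0) =
        nb (if j = 1 then ue d else 0 : Bv E.D) := by
      by_cases c : j = 1
      · simp [c, S.nb.ue, S.num.dim]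
      · simp [c, S.nb.zero, beq_eq_false_iff_ne.2 c]
    have z : p.2.2 + p.2.2 = 0 := Prod.ext (funext fun _ => E.add_self _)
      (funext fun _ => E.add_self _)
    simp only [nm, k, S.wr.lC, z]
    exact hv j hj
  have k := pn_eq S.num S.nb (fun _ => tbs_getD tb) e
  rw [pw, ← k]
  dsimp only [op]

end Pool.Agent.PP.QL.I
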