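import Pool.Agent.MP_13199e_lc.QL.I.Spec

/-! PROJECT QL, block IMPL: the universal wire. -/

set_option autoImplicit false

namespace Pool.Agent.PP.QL.I

open Pool.Agent.MP_13199e_lc Pool.Agent.PolyT Pool.Agent.H82 Function Env

namespace Wi

/-- The sum of codes of vectors. -/
def xl (a b : List ℕ) : List ℕ := (a.zip b).map fun x => x.1 ^^^ x.2

/-- The sum of codes of positions. -/
def xp (p γ : NP) : NP := (p.1 ^^^ γ.1, (xl p.2.1.1 γ.2.1.1, xl p.2.1.2 γ.2.1.2),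
  (xl p.2.2.1 γ.2.2.1, xl p.2.2.2 γ.2.2.2))

/-- The normal form of the code of a vector. -/
def nl (q : ℕ) (a : List ℕ) : List ℕ := (List.range 4).map fun k => a.getD k 0 % q

/-- The normal form of the code of a position. -/
def np (σ : Sg) (γ : NP) : NP := (γ.1 % 2 ^ σ.1.length,
  (nl σ.2.length γ.2.1.1, nl σ.2.length γ.2.1.2), (nl σ.2.length γ.2.2.1, nl σ.2.length γ.2.2.2))

/-- The move before the translation, on codes; `m` is a power of two. -/
def pn (N : Num) (σ : Sg) (k m : ℕ) (γ p : NP) : NP :=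
  bif eqB k 1 then (p.1 ^^^ N.g (σ, γ.2.1.1, p.2.1.2) / m * m, p.2)
  else bif eqB k 2 then (p.1 ^^^ N.g (σ, γ.2.2.1, p.2.2.2) % m, p.2)
  else bif eqB k 3 then (p.1, p.2.2, p.2.1) else p

variable {E : Env}

/-- The move before the translation. -/
def pre (k l : ℕ) (γ p : E.P) : E.P :=
  if k = 1 then (p.1 + msk false l (g (γ.2.1.1, p.2.1.2)), p.2)
  else if k = 2 then (p.1 + msk true l (g (γ.2.2.1, p.2.2.2)), p.2)
  else if k = 3 then (p.1, p.2.2, p.2.1) else p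

theorem pre_inj (k l : ℕ) (γ : E.P) : Injective (pre k l γ) := by
  rintro ⟨x, u, v⟩ ⟨x', u', v'⟩ h
  unfold pre at h
  split_ifs at h
  · obtain ⟨h1, rfl, rfl⟩ := by simpa only [Prod.mk.injEq] using h
    rw [add_right_cancel h1]
  · obtain ⟨h1, rfl, rfl⟩ := by simpa only [Prod.mk.injEq] using h
    rw [add_right_cancel h1]
  · obtain ⟨rfl, rfl, rfl⟩ := by simpa only [Prod.mk.injEq] using h
    rfl
  · exact h

theorem msk_min (s : Bool) (l : ℕ) (x : Bv E.D) : msk s (min l E.D) x = msk s l x := by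
  funext i
  simp [msk]

theorem xl_ca (h : Nb E) (a b : E.A) : xl (ca a) (ca b) = ca (a + b) := by
  rw [h.cadd, xl, List.zip_eq_zipWith, List.map_zipWith]

theorem xp_cp (h : Nb E) (p γ : E.P) : xp (cp p) (cp γ) = cp (p + γ) := by
  simp only [xp, cp, cu, xl_ca h, ← h.add]
  rfl

theorem nl_ex (a : List ℕ) : ∃ b : E.A, nl (2 ^ (2 * E.e)) a = ca b :=
  ⟨fun k => E.cd.symm ⟨a.getD k 0 % 2 ^ (2 * E.e), Nat.mod_lt _ (by positivity)⟩, by
    simp [nl, ca, List.range_succ]⟩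

theorem nl_ca (a : E.A) : nl (2 ^ (2 * E.e)) (ca a) = ca a := by
  simp [nl, ca, List.range_succ, Nat.mod_eq_of_lt (E.cd _).2]

end Wi

open Wi in
theorem wireS : WireS := by
  intro N ⟨_, _, pg, _, _⟩
  refine ⟨fun a => xp (pn N a.1 a.2.1.1 (2 ^ (a.1.1.take a.2.1.2.1).length) (np a.1 a.2.1.2.2)
    a.2.2) (np a.1 a.2.1.2.2), by unfold xp pn np xl nl; fun_prop, fun σ E n b h => ?_⟩
  have fx : ∀ γ : E.P, np σ (cp γ) = cp γ := fun γ => by
    simp only [np, cp, cu, n.dim, n.fld, nl_ca, Nat.mod_eq_of_lt (h.lt _)]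
  have ex : ∀ γ, ∃ γ' : E.P, np σ γ = cp γ' := fun γ => by
    obtain ⟨x, hx⟩ := h.surj (γ.1 % 2 ^ E.D) (Nat.mod_lt _ (by positivity))
    obtain ⟨a1, e1⟩ := nl_ex (E := E) γ.2.1.1
    obtain ⟨a2, e2⟩ := nl_ex (E := E) γ.2.1.2
    obtain ⟨a3, e3⟩ := nl_ex (E := E) γ.2.2.1
    obtain ⟨a4, e4⟩ := nl_ex (E := E) γ.2.2.2
    exact ⟨(x, (a1, a2), a3, a4), by simp only [np, cp, cu, n.dim, n.fld, hx, e1, e2, e3, e4]⟩
  have k0 : ∀ k l (γ p : E.P), xp (pn N σ k (2 ^ (σ.1.take l).length) (cp γ) (cp p)) (cp γ) =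
      cp (pre k l γ p + γ) := fun k l γ p => by
    rw [← xp_cp h, List.length_take, n.dim]
    congr 1
    have g1 := n.g (γ.2.1.1, p.2.1.2)
    have g2 := n.g (γ.2.2.1, p.2.2.2)
    simp only [cu] at g1 g2
    simp only [pn, pre, cp, cu, g1, g2, ← h.hi, ← h.lo, msk_min, ← h.add, Bool.cond_eq_ite, eqB_iff]
    split_ifs <;> rfl
  have key : ∀ k l (γ p : E.P), xp (pn N σ k (2 ^ (σ.1.take l).length) (np σ (cp γ)) (cp p))
      (np σ (cp γ)) = cp (pre k l γ p + γ) := fun k l γ p => by rw [fx, k0]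
  have z0 : za = ca (0 : E.A) := h.czero.symm
  have z1 : zu = cu (0 : E.A × E.A) := by rw [zu, z0]; rfl
  refine ⟨fun w => ?_, fun γ p => key 0 0 γ p, fun p => ?_, fun l p => ?_, fun x u p => ?_,
    fun s l v a p => ?_, fun u p => ?_⟩
  · obtain ⟨γ, e⟩ := ex w.2.2
    exact ⟨fun p => pre w.1 w.2.1 γ p + γ, (add_left_injective γ).comp (pre_inj _ _ γ),
      fun p => by simp only [e, k0]⟩
  · simpa [w0, wT, z1, cp, h.zero, pre] using key 0 0 0 p
  · simpa [wT, z1, cp, h.ue, pre, flp] using key 0 0 (ue l, 0, 0) p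
  · simpa [wT, z1, cp, pre] using key 0 0 (x, 0, u) p
  · cases s <;> cases v
    · simpa [wV, zu, z0, cp, cu, h.zero, pre, vw] using key 1 l (0, (a, 0), 0) p
    · simpa [wV, wT, zu, z0, cp, cu, h.zero, pre, vw] using key 0 0 (0, (0, a), 0) p
    · simpa [wV, zu, z0, cp, cu, h.zero, pre, vw] using key 2 l (0, 0, (a, 0)) p
    · simpa [wV, wT, zu, z0, cp, cu, h.zero, pre, vw] using key 0 0 (0, 0, (0, a)) p
  · simpa [wS, z1, cp, h.zero, pre] using key 3 0 (0, u, 0) p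

end Pool.Agent.PP.QL.I
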