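import Pool.Agent.MP_13199e_lc.QL.I.Lay
import Pool.Agent.MP_13199e_lc.QL.I.Wire
import Pool.Agent.MP_13199e_lc.QL.I.Gen
import Pool.Agent.MP_13199e_lc.QL.I.V0
import Pool.Agent.MP_13199e_lc.QL.I.Pur
import Pool.Agent.MP_13199e_lc.QL.I.Small
import Pool.Agent.MP_13199e_lc.QL.I.Ec
import Pool.Agent.MP_13199e_lc.QL.I.Tot
import Pool.Agent.MP_13199e_lc.QL.I.Pe
import Pool.Agent.MP_13199e_lc.QL.I.Se
import Pool.Agent.MP_13199e_lc.QL.I.Sel

/-! PROJECT QL, block IMPL: the system is a plain circuit. -/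

set_option autoImplicit false

namespace Pool.Agent.PP.QL

open I

theorem impS : ImpS :=
  imp_of wireS genS purS (by
    simp only [forms, List.forall_mem_cons]
    exact ⟨opV0, opCp, opMj, opOk, opSub, opEc false, opEc true, opTot, opOut, opTv, opPe, opPz,
      opSe, opUu, opSel, opVt false, opVt true, List.forall_mem_nil _⟩)

end Pool.Agent.PP.QL
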