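import Pool.Agent.MP_13199e_lc.QL.I.Spec

/-! PROJECT QL, block IMPL: the keys, the dispatch of the gates, the assembly. -/

set_option autoImplicit false

namespace Pool.Agent.PP.QL.I

open Pool.Agent.MP_13199e_lc Pool.Agent.PolyT Pool.Agent.H82 Function Env

/-! ### Dispatch -/

/-- One of two gates, by the last bit of the parameter. -/
def Op.alt (O O' : Op) : Op where
  rd a := bif a.2.bodd then O.rd (a.1, half a.2) else O'.rd (a.1, half a.2)
  fn a := bif a.1.2.bodd then O.fn ((a.1.1, half a.1.2), a.2) else O'.fn ((a.1.1, half a.1.2), a.2)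

/-- The empty gate. -/
def Op.nil : Op := ⟨fun _ => [], fun _ => 0⟩

/-- One of a list of gates. -/
def sel (l : List Op) : Op := l.foldr Op.alt Op.nil

theorem sel_pol {l : List Op} (h : ∀ O ∈ l, O.Pol) : (sel l).Pol := by
  induction l with
  | nil => exact ⟨p_const _, p_const _⟩
  | cons O l ih =>
    obtain ⟨h1, h2⟩ := h O (by simp)
    obtain ⟨h3, h4⟩ := ih fun O' hO => h O' (by simp [hO])
    constructor
    · show Poly fun a : Sg × ℕ => bif a.2.bodd then O.rd (a.1, half a.2) else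
        (sel l).rd (a.1, half a.2)
      fun_prop
    · show Poly fun a : (Sg × ℕ) × (NA × NA) × List ℕ × List (LR × ℕ) => bif a.1.2.bodd then
        O.fn ((a.1.1, half a.1.2), a.2) else (sel l).fn ((a.1.1, half a.1.2), a.2)
      fun_prop

/-- The parameter of the gate number `c` at the level `l`. -/
def pc (c l : ℕ) : ℕ := 2 ^ c * (2 * l + 1)

theorem sel_sat {wr : Sg × Wn × NP → NP} {σ : Sg} {E : Env} {n : ℕ} {x : ℕ → NP → ℕ → V4}
    {tb : ℕ → E.K} {p : E.P} {o : ℕ → V4} (c : ℕ) (l : List Op)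
    (h : (sel l).Sat wr σ (pc c n) x tb p o) (hc : c < l.length) :
    l[c].Sat wr σ n x tb p o := by
  induction l generalizing c with
  | nil => exact absurd hc (Nat.not_lt_zero _)
  | cons O l ih =>
    cases c with
    | zero =>
      have e1 : (pc 0 n).bodd = true := by simp [pc]
      have e2 : half (pc 0 n) = n := by simp only [pc, half]; omega
      simpa only [sel, List.foldr_cons, Op.Sat, Op.alt, e1, e2, cond_true,
        List.getElem_cons_zero] using h
    | succ c =>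
      have e0 : pc (c + 1) n = 2 * pc c n := by simp only [pc]; ring
      have e1 : (pc (c + 1) n).bodd = false := by simp [e0]
      have e2 : half (pc (c + 1) n) = pc c n := by rw [e0, half]; omega
      refine ih c ?_ (by simpa using hc)
      simpa only [sel, List.foldr_cons, Op.Sat, Op.alt, e1, e2, cond_false] using h

/-! ### Keys -/

/-- Groups of layers: register, kind (`5` is the top), route or map, time. -/
abbrev SK : Type := ℕ × ℕ × ℕ × ℕ

/-- Keys: group, kind, level. -/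
abbrev Ky : Type := SK × ℕ × ℕ

instance decSK : DecidableEq SK := instDecidableEqProd

instance decKy : DecidableEq Ky := instDecidableEqProd

/-- The output of a step. -/
def kO (i c j τ : ℕ) : Ky := ((i, c, j, τ), 7, 0)

/-- A layer of the top. -/
def kT (i k l : ℕ) : Ky := ((i, 5, 0, 0), k, l)

section
variable (tm : Sg → List Bool) (dr : Sg × ℕ → ℕ)

def lay (σ : Sg) : List Ky :=
  ((List.range 5).flatMap fun i => (List.range 6).flatMap fun k => (List.range 64).map (kT i k)) ++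
  (List.range 4).flatMap fun i => (List.range 5).flatMap fun c => (List.range 8).flatMap fun j =>
    (idx (true :: tm σ)).flatMap fun τ => (List.range 8).flatMap fun k =>
      (idx (true :: σ.1)).map fun l => ((i, c, j, τ), k, l)

/-- The direction of the shift of a step. -/
def dir (σ : Sg) (s : SK) : ℕ := bif eqB s.2.1 3 then dr (σ, s.2.2.2) else σ.1.length

/-- The number of the gate and its level. -/
def opc (a : Sg × Ky) : ℕ × ℕ :=
  bif eqB a.2.1.2.1 5 then
    [(9, 0), (14, a.2.1.1), bif eqB a.2.1.1 4 then (11, 0) else (10, 0), (12, 0),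
      bif eqB a.2.2.2 0 then (15 + a.2.1.1, 0) else (1, 0)].getD a.2.2.1 (13, a.2.2.2)
  else
    [bif eqB a.2.2.2 0 then (0, dir dr a.1 a.2.1) else (6, a.2.2.2), (1, 0), (2, 0), (3, 0),
      (4, a.2.2.2), (5, a.2.2.2 + 1), (7, 0)].getD a.2.2.1 (8, 0)

def par (a : Sg × Ky) : ℕ := pc ((List.range 20).take (opc dr a).1).length (opc dr a).2

/-- The route `j` at the time `τ`. -/
def kR (σ : Sg) (i j τ : ℕ) : Ky := bif ltB τ (tm σ).length then kO i 3 j τ else kO i 1 0 0

/-- The inputs of a step. -/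
def inp (σ : Sg) (s : SK) (n : ℕ) : Ky :=
  [kT s.1 1 0, kO s.1 0 0 0, kO s.1 1 0 0, kR tm σ s.1 s.2.2.1 (s.2.2.2 + 1)].getD s.2.1
    (bif eqB n 0 then kO s.1 1 0 0 else kR tm σ s.1 (n - 1) 0)

/-- The counters, and other layers from the number 36 on. -/
def kU (n : ℕ) (k : Ky) : Ky :=
  bif ltB n 18 then kT 0 5 n else bif ltB n 36 then kT 1 5 (n - 18) else k

def src (a : Sg × Ky × ℕ) : Ky :=
  bif eqB a.2.1.1.2.1 5 then
    [[(((a.2.1.1.1, 0, 0, 0), 6, 0) : Ky), kO a.2.1.1.1 2 0 0].getD a.2.2 (kO a.2.1.1.1 4 2 0),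
      kU a.2.2 ([kO a.2.1.1.1 1 0 0, kO ((a.2.1.1.1 + 3) % 4) 4 0 0].getD (a.2.2 - 36)
        (kO ((a.2.1.1.1 + 1) % 4) 4 1 0)),
      bif eqB a.2.1.1.1 4 then [kT 0 0 0].getD a.2.2 (kO 0 1 0 0) else
        [kT a.2.1.1.1 0 0, kT ((a.2.1.1.1 + 1) % 4) 0 0, kO a.2.1.1.1 4 0 0,
          kO ((a.2.1.1.1 + 1) % 4) 1 0 0, kO ((a.2.1.1.1 + 1) % 4) 4 1 0].getD a.2.2
            (kO a.2.1.1.1 1 0 0),
      kT a.2.1.1.1 2 0,
      bif eqB a.2.1.2.2 0 then kU a.2.2 (kT (a.2.2 - 36) 3 0) else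
        kT a.2.1.1.1 4 (a.2.1.2.2 - 1)].getD a.2.1.2.1 (kT a.2.1.1.1 4 a.2.2)
  else
    [bif eqB a.2.1.2.2 0 then inp tm a.1 a.2.1.1 a.2.2 else (a.2.1.1, 5, a.2.1.2.2 - 1),
      (a.2.1.1, 0, a.2.1.2.2), (a.2.1.1, min a.2.2 1, a.2.1.2.2), (a.2.1.1, min a.2.2 1, a.2.1.2.2),
      (a.2.1.1, 2, a.2.1.2.2), (a.2.1.1, 4, a.2.1.2.2),
      (a.2.1.1, 2 + a.2.2 % 2, a.2.2 / 2)].getD a.2.1.2.1 (a.2.1.1, 2, a.1.1.length)

end

section
variable {α : Type} (ctl : α × ℕ × ℕ × ℕ → Bool) (tb : α × ℕ × ℕ × List Bool → Bool)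
  (y0 : α × ℕ → Bool)

def tab (a : α × Ky × ℕ × ℕ) : Bool :=
  [a.2.2.1.testBit 0, a.2.2.1.testBit 0, a.2.2.1.testBit 0 && !a.2.2.1.testBit 1,
    a.2.2.1.testBit (ctl (a.1, a.2.1.1.2.2.1, a.2.1.1.2.2.2, a.2.2.2)).toNat,
    tb (a.1, bif eqB a.2.1.1.2.2.1 2 then 2 + a.2.1.1.1 else a.2.1.1.2.2.1, a.2.2.2,
      (List.range 9).map fun j => a.2.2.1.testBit j)].getD a.2.1.1.2.1 (y0 (a.1, a.2.2.2))

end

section
variable {α : Type} [N487b59b3 α] {f g h k : α → ℕ} {tm : Sg → List Bool} {dr : Sg × ℕ → ℕ}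

@[fun_prop] theorem p_kO (hf : Poly f) (hg : Poly g) (hh : Poly h) (hk : Poly k) :
    Poly fun a => kO (f a) (g a) (h a) (k a) := by unfold kO; fun_prop

@[fun_prop] theorem p_kT (hf : Poly f) (hg : Poly g) (hh : Poly h) :
    Poly fun a => kT (f a) (g a) (h a) := by unfold kT; fun_prop

@[fun_prop] theorem p_kU {u : α → Ky} (hf : Poly f) (hu : Poly u) :
    Poly fun a => kU (f a) (u a) := by unfold kU; fun_prop

theorem p_lay (ht : Poly tm) : Poly (lay tm) := by unfold lay; fun_prop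

theorem p_par (hd : Poly dr) : Poly (par dr) := by
  have : Poly (opc dr) := by unfold opc dir; fun_prop
  unfold par pc; fun_prop

theorem p_src (ht : Poly tm) : Poly (src tm) := by unfold src inp kR; fun_prop

theorem p_tab {ctl : α × ℕ × ℕ × ℕ → Bool} {tb : α × ℕ × ℕ × List Bool → Bool}
    {y0 : α × ℕ → Bool} (h1 : Poly ctl) (h2 : Poly tb) (h3 : Poly y0) : Poly (tab ctl tb y0) := by
  unfold tab; fun_prop

theorem mem_top {σ : Sg} {i k l : ℕ} (hi : i < 5) (hk : k < 6) (hl : l < 64) :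
    kT i k l ∈ lay tm σ :=
  List.mem_append_left _ (List.mem_flatMap.2 ⟨i, List.mem_range.2 hi, List.mem_flatMap.2
    ⟨k, List.mem_range.2 hk, List.mem_map.2 ⟨l, List.mem_range.2 hl, rfl⟩⟩⟩)

theorem mem_step {σ : Sg} {i c j τ k l : ℕ} (hi : i < 4) (hc : c < 5) (hj : j < 8)
    (hτ : τ ≤ (tm σ).length) (hk : k < 8) (hl : l ≤ σ.1.length) :
    ((i, c, j, τ), k, l) ∈ lay tm σ :=
  List.mem_append_right _ (List.mem_flatMap.2 ⟨i, List.mem_range.2 hi, List.mem_flatMap.2
    ⟨c, List.mem_range.2 hc, List.mem_flatMap.2 ⟨j, List.mem_range.2 hj, List.mem_flatMap.2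
      ⟨τ, mem_idx.2 (Nat.lt_succ_of_le hτ), List.mem_flatMap.2 ⟨k, List.mem_range.2 hk,
        List.mem_map.2 ⟨l, mem_idx.2 (Nat.lt_succ_of_le hl), rfl⟩⟩⟩⟩⟩⟩)

end

/-! ### The words -/

/-- The forced forms in the order of the gates. -/
def forms : List Form := [fV0, fCp, fMj, fOk, fSub, fEc false, fEc true, fTot, fOut, fTv, fPe, fPz,
  fSe, fUu, fSel, fVt false, fVt true]

section
variable {E : Env} (X : Ky → E.Wd)

def stepW (s : SK) : StepW E :=
  ⟨fun l => X (s, 0, l), fun l => X (s, 2, l), fun l p => X (s, 3, l) p 0, fun l => X (s, 4, l),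
    fun l => X (s, 5, l), fun p => X (s, 6, 0) p 0, X (s, 7, 0)⟩

def regW (i : ℕ) : RegW E :=
  ⟨stepW X (i, 0, 0, 0), stepW X (i, 1, 0, 0), stepW X (i, 2, 0, 0),
    fun j τ => stepW X (i, 3, j, τ), fun j => stepW X (i, 4, j, 0), fun p => X (kT i 0 0) p 0⟩

def topW : T.Lay E.P (ℕ → V4) :=
  ⟨fun i => X (kT i 1 0), fun i => X (kO i 1 0 0), fun i => X (kO i 4 0 0), fun i => X (kO i 4 1 0),
    fun i p => X (kT i 0 0) p 0, fun i p => X (kT i 2 0) p 0, fun i p => X (kT i 3 0) p 0,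
    fun c k p => X (kT c.toNat 4 k) p 0, fun c p n => X (kT c.toNat 5 n) p 0⟩

variable (tm : Sg → List Bool) (dr : Sg × ℕ → ℕ) (σ : Sg) (Γ : List E.P)
  (T : Ky → ℕ → Bv E.D → Bool) (p : E.P)

/-- Every key has the forced form of its gate. -/
def All : Prop := ∀ k ∈ lay tm σ, ∀ c l, opc dr (σ, k) = (c, l) → ∀ h : c < forms.length,
  forms[c] E Γ l (fun s => X (src tm (σ, k, s))) (fun n => enP (fun h => bt (T k n h)) p) p (X k p)

variable {X tm dr σ Γ T p}

theorem step_of (hp : PurS) (H : All X tm dr σ Γ T p) (hD : σ.1.length = E.D) {i c j τ : ℕ}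
    (hi : i < 4) (hc : c < 5) (hj : j < 8) (hτ : τ ≤ (tm σ).length) :
    StepG (T ((i, c, j, τ), 0, 0)) (fun k => if k = 1 then ue (dir dr σ (i, c, j, τ)) else 0)
      (fun n => X (inp tm σ (i, c, j, τ) n)) (stepW X (i, c, j, τ)) p := by
  have e : eqB c 5 = false := eqB_false_iff.2 (by omega)
  have m : ∀ {k l}, k < 8 → l ≤ E.D → ((i, c, j, τ), k, l) ∈ lay tm σ := fun hk hl =>
    mem_step hi hc hj hτ hk (hD ▸ hl)
  refine ⟨?_, fun l hl => ?_, fun l hl => ?_, fun l hl => ?_, fun l hl => ?_, ?_, ?_⟩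
  · have := H _ (m (k := 0) (l := 0) (by omega) (by omega)) 0 _ (by simp only [opc, e]; rfl)
      (by decide)
    simp only [src, e] at this
    exact this
  · have h1 := H _ (m (k := 1) (by omega) hl) 1 0 (by simp only [opc, e]; rfl) (by decide)
    have h2 := H _ (m (k := 2) (by omega) hl) 2 0 (by simp only [opc, e]; rfl) (by decide)
    have h3 := H _ (m (k := 3) (by omega) hl) 3 0 (by simp only [opc, e]; rfl) (by decide)
    simp only [src, e] at h1 h2 h3
    exact hp E Γ 0 (fun s => X ((i, c, j, τ), min s 1, l)) (fun _ => 0) p _ _ h1 h2 h3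
  · have := H _ (m (k := 4) (by omega) hl.le) 4 l (by simp only [opc, e]; rfl) (by decide)
    simp only [src, e] at this
    exact this hl
  · have := H _ (m (k := 5) (by omega) hl.le) 5 (l + 1) (by simp only [opc, e]; rfl) (by decide)
    simp only [src, e] at this
    exact this
  · have := H _ (m (k := 0) (l := l + 1) (by omega) hl) 6 (l + 1) (by simp only [opc, e]; rfl)
      (by decide)
    simp only [src, e] at this
    exact this
  · have := H _ (m (k := 6) (l := 0) (by omega) (by omega)) 7 0 (by simp only [opc, e]; rfl)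
      (by decide)
    simp only [src, e] at this
    have e1 : ∀ l, 2 + 2 * l % 2 = 2 ∧ 2 * l / 2 = l := fun l => by omega
    have e2 : ∀ l, 2 + (2 * l + 1) % 2 = 3 ∧ (2 * l + 1) / 2 = l := fun l => by omega
    simpa only [forms, fTot, stepW, List.getElem_cons_succ, List.getElem_cons_zero, cond_false,
      List.getD_cons_succ, List.getD_cons_zero, e1, e2] using this
  · have := H _ (m (k := 7) (l := 0) (by omega) (by omega)) 8 0 (by simp only [opc, e]; rfl)
      (by decide)
    simp only [src, e, hD] at this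
    exact this

theorem kU_lo {n : ℕ} (h : n < 18) (k : Ky) : kU n k = kT 0 5 n := by
  rw [kU, ltB_iff.2 h, cond_true]

theorem kU_mid {n : ℕ} (h : n < 18) (k : Ky) : kU (18 + n) k = kT 1 5 n := by
  rw [kU, ltB_false_iff.2 (by omega), ltB_iff.2 (by omega), cond_false, cond_true,
    Nat.add_sub_cancel_left]

theorem kU_hi (n : ℕ) (k : Ky) : kU (36 + n) k = k := by
  rw [kU, ltB_false_iff.2 (by omega), ltB_false_iff.2 (by omega), cond_false, cond_false]

theorem adm_congr {U V : ℕ → V4} (h : ∀ n < 18, U n = V n) {a : ℕ} (ha : QL.T.Adm U a) :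
    QL.T.Adm V a := ha.imp fun _ hb => ⟨fun n hn => h n hn ▸ hb.1 n hn, hb.2⟩

theorem top_of (he : 0 < 2 * E.e) (H : All X tm dr σ Γ T p) {y0 : Bv E.D → Bool}
    (hT : ∀ i k l n, T (kT i k l) n = y0) :
    (topW X).Ok Is enB y0 (fun (s : Fin Γ.length) p => p + Γ[s]) (E.sm 32) p := by
  have pe : ∀ i < 4, _ := fun i hi => by
    have e : eqB i 4 = false := eqB_false_iff.2 (by omega)
    have := H _ (mem_top (i := i) (k := 2) (l := 0) (by omega) (by omega) (by omega)) 10 0
      (by simp only [opc, kT, e]; rfl) (by decide)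
    simp only [src, kT, e] at this
    exact this
  have pz := H _ (mem_top (i := 4) (k := 2) (l := 0) (by omega) (by omega) (by omega)) 11 0 rfl
    (by decide)
  have se := fun i (hi : i < 5) =>
    H _ (mem_top (i := i) (k := 3) (l := 0) hi (by omega) (by omega)) 12 0 rfl (by decide)
  have c5 : ∀ c : Bool, c.toNat < 5 := by decide
  have uu := fun (c : Bool) n (hn : n < 18) =>
    H _ (mem_top (k := 5) (l := n) (c5 c) (by omega) (by omega)) 13 n rfl (by decide)
  simp only [hT] at pz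
  refine ⟨fun i hi => (pe i hi).1, fun i hi => (pe i hi).2, pz.1, pz.2, fun i hi => (se i hi).1,
    fun i hi => (se i hi).2, fun c k hk b hb => ?_, fun c n hn => (uu c n hn).1,
    fun c n hn => (uu c n hn).2, fun i hi c hc => ?_, fun c s hs => ?_⟩
  · exact H _ (mem_top (k := 4) (l := k + 1) (c5 c) (by omega) (by omega)) 1 0 rfl (by decide) 0 he
      b hb
  · have := H _ (mem_top (i := i) (k := 1) (l := 0) (by omega) (by omega) (by omega)) 14 i rfl
      (by decide)
    simp only [hT] at this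
    refine this c (fun a b ha hb => hc a b (adm_congr (fun n hn => ?_) ha)
      (adm_congr (fun n hn => ?_) hb)) hi
    · exact congrArg (fun k => X k p 0) (kU_lo hn _)
    · exact congrArg (fun k => X k p 0) (kU_mid hn _)
  · have : fVt c E Γ 0 (fun s => X (kU s (kT (s - 36) 3 0))) (fun _ => 0) p
        (X (kT c.toNat 4 0) p) := by
      cases c
      · exact H _ (mem_top (i := 0) (k := 4) (l := 0) (by omega) (by omega) (by omega)) 15 0 rfl
          (by decide)
      · exact H _ (mem_top (i := 1) (k := 4) (l := 0) (by omega) (by omega) (by omega)) 16 0 rfl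
          (by decide)
    refine this s fun a b e z ha hb he hz => hs a b e z (adm_congr (fun n hn => ?_) ha)
      (adm_congr (fun n hn => ?_) hb) ?_ hz
    · exact congrArg (fun k => X k p 0) (kU_lo hn _)
    · exact congrArg (fun k => X k p 0) (kU_mid hn _)
    · simp only [kU_hi, Nat.add_sub_cancel_left] at he
      exact he

end

theorem ue_top (E : Env) : (ue E.D : Bv E.D) = 0 := funext fun i => if_neg i.2.ne

theorem reg_of {α : Type} {E : Env} {X : Ky → E.Wd} {tm : Sg → List Bool} {dr : Sg × ℕ → ℕ}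
    {σ : Sg} {Γ : List E.P} {p : E.P} {ctl : α × ℕ × ℕ × ℕ → Bool}
    {tb : α × ℕ × ℕ × List Bool → Bool} {y0 : α × ℕ → Bool} {a : α} (hp : PurS)
    (H : All X tm dr σ Γ (fun k n h => tab ctl tb y0 (a, k, n, nb h)) p) (hD : σ.1.length = E.D)
    {i : ℕ} (hi : i < 4) :
    RegG ⟨(tm σ).length, fun τ => dr (σ, τ), fun j τ h => ctl (a, j, τ, h),
      fun o h l => tb (a, o, h, l)⟩ i (X (kT i 1 0)) (regW X i) p := by
  have z : (fun k : ℕ => if k = 1 then (ue σ.1.length : Bv E.D) else 0) = fun _ => 0 := by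
    rw [hD, ue_top]; simp
  have r : ∀ j τ, X (kR tm σ i j τ) = (regW X i).R (tm σ).length j τ := fun j τ => by
    unfold kR RegW.R
    split_ifs with h
    · rw [ltB_iff.2 h]; rfl
    · rw [ltB_false_iff.2 (not_lt.1 h)]; rfl
  refine ⟨z ▸ step_of (c := 0) (j := 0) (τ := 0) hp H hD hi (by omega) (by omega) (by omega),
    z ▸ step_of (c := 1) (j := 0) (τ := 0) hp H hD hi (by omega) (by omega) (by omega),
    z ▸ step_of (c := 2) (j := 0) (τ := 0) hp H hD hi (by omega) (by omega) (by omega),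
    fun j hj τ hτ => r j (τ + 1) ▸ step_of (c := 3) hp H hD hi (by omega) hj hτ.le,
    fun o ho => ?_, H _ (mem_top (i := i) (k := 0) (l := 0) (by omega) (by omega) (by omega)) 9 0
      rfl (by decide)⟩
  have := step_of (c := 4) (j := o) (τ := 0) hp H hD hi (by omega) (by omega) (by omega)
  have e1 : (fun n => X (inp tm σ (i, 4, o, 0) n)) = fun k => if k = 0 then (regW X i).s2.out
      else (regW X i).R (tm σ).length (k - 1) 0 := funext fun n => by
    rcases n with _ | n
    · rfl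
    · exact r _ _
  have e2 : (bif eqB o 2 then 2 + i else o) = if o = 2 then 2 + i else o := by
    by_cases h : o = 2 <;> simp [h, eqB]
  rw [e1] at this
  rw [← e2, ← z]
  exact this

theorem imp_of (hw : WireS) (hg : GenS) (hp : PurS) (ho : ∀ Φ ∈ forms, OpS Φ) : ImpS := by
  intro hm α _ N sg big Γ tm dr ctl tb y0 pN p1 p2 p3 p4 p5 p6 p7 p8
  obtain ⟨wr, pw, hw⟩ := hw N pN
  choose O hO using fun c : Fin forms.length => ho forms[c] (List.getElem_mem _) N Γ pN p3
  obtain ⟨f, L, r, q1, q2, q3, h⟩ := hg hm α Ky N sg big wr (sel (List.ofFn O)) (lay tm) (par dr)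
    (src tm) (tab ctl tb y0) pN p1 p2 pw (sel_pol fun O' h => by
      obtain ⟨c, rfl⟩ := List.mem_ofFn.1 h
      exact (hO c).1) (p_lay p4) (p_par p5) (p_src p4) (p_tab p6 p7 p8) fun σ =>
        List.ne_nil_of_mem (mem_top (i := 0) (k := 0) (l := 0) (by omega) (by omega) (by omega))
  refine ⟨f, L, fun a => r (a.1, kO a.2.1 1 0 0, a.2.2), q1, q2, by fun_prop,
    fun a E h1 h2 h3 h4 Γ' h5 h6 => ?_⟩
  obtain ⟨a1, a2, a3, a4⟩ := h a E h1 h2 h3 (hw _ E h1 h2 h3) h4
  refine ⟨a1, a2, a3, fun y => ?_⟩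
  obtain ⟨F, b1, b2⟩ := a4 y
  refine ⟨F, regW fun k p j => r ((a, y), k, cp p, j), topW fun k p j => r ((a, y), k, cp p, j),
    b1, fun i _ => ⟨rfl, rfl, rfl, rfl⟩, fun p hF => ?_, fun i _ p j => rfl⟩
  have H : All (fun k p j => r ((a, y), k, cp p, j)) tm dr (sg a) Γ'
      (fun k n h => tab ctl tb y0 (a, k, n, nb h)) p := fun k hk c l e hc => by
    have e' : par dr (sg a, k) = pc c l := by
      rw [par, e, List.length_take, List.length_range, min_eq_left (hc.le.trans (by decide))]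
    have := sel_sat c _ (e' ▸ b2 p hF k hk) (by simpa using hc)
    rw [List.getElem_ofFn] at this
    exact (hO ⟨c, hc⟩).2 wr _ E Γ' ⟨h1, h2, h3, hw _ E h1 h2 h3, h5, h6⟩ _ _ _ _ _ this
  exact ⟨fun i hi => reg_of hp H h1.dim hi, top_of (e_pos h2) H fun _ _ _ _ => rfl⟩

end Pool.Agent.PP.QL.I
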