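import Pool.Agent.MP_13199e_lc.QL.Spec
import Pool.Agent.MP_13199e_lc.QL.Kit

/-! PROJECT QL, block IMPL: wires, gates with named reads, and the statements of the rows. -/

set_option autoImplicit false

namespace Pool.Agent.PP.QL.I

open Pool.Agent.MP_13199e_lc Pool.Agent.PolyT Pool.Agent.H82 Function Env

/-! ### Wires -/

/-- The code of a wire: kind, cut, vector. -/
abbrev Wn : Type := ℕ × ℕ × NP

/-- The code of the zero vector. -/
def za : List ℕ := [0, 0, 0, 0]

/-- The code of the zero pair. -/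
def zu : NA := (za, za)

/-- The translation by `γ`. -/
def wT (γ : NP) : Wn := (0, 0, γ)

/-- The identity. -/
def w0 : Wn := wT (0, zu, zu)

/-- The view `vw s l v`. -/
def wV (s : Bool) (l : ℕ) (v : Bool) (a : List ℕ) : Wn :=
  bif s then (bif v then wT (0, zu, (za, a)) else (2, l, 0, zu, (a, za)))
  else (bif v then wT (0, (za, a), zu) else (1, l, 0, (a, za), zu))

/-- The exchange of the two pairs followed by a translation of the first pair. -/
def wS (u : NA) : Wn := (3, 0, 0, u, zu)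

section
variable {α : Type} [N487b59b3 α]

@[fun_prop] theorem p_wT {γ : α → NP} (h : Poly γ) : Poly fun a => wT (γ a) := by
  unfold wT; fun_prop

@[fun_prop] theorem p_wV {s v : α → Bool} {l : α → ℕ} {x : α → List ℕ} (hs : Poly s) (hl : Poly l)
    (hv : Poly v) (hx : Poly x) : Poly fun a => wV (s a) (l a) (v a) (x a) := by
  unfold wV; fun_prop

@[fun_prop] theorem p_wS {u : α → NA} (h : Poly u) : Poly fun a => wS (u a) := by
  unfold wS; fun_prop

end

/-- The laws of the wires. -/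
structure WOk (wr : Sg × Wn × NP → NP) (σ : Sg) (E : Env) : Prop where
  all : ∀ w, ∃ π : E.P → E.P, Injective π ∧ ∀ p, wr (σ, w, cp p) = cp (π p)
  lT : ∀ γ p : E.P, wr (σ, wT (cp γ), cp p) = cp (p + γ)
  l0 : ∀ p : E.P, wr (σ, w0, cp p) = cp p
  lF : ∀ l (p : E.P), wr (σ, wT (uv E.D l, zu, zu), cp p) = cp (flp l p)
  lC : ∀ (x : Bv E.D) (u : E.A × E.A) (p : E.P),
    wr (σ, wT (nb x, zu, cu u), cp p) = cp (p.1 + x, p.2.1, p.2.2 + u)
  lV : ∀ s l v (a : E.A) p, wr (σ, wV s l v (ca a), cp p) = cp (vw s l v a p)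
  lS : ∀ (u : E.A × E.A) (p : E.P), wr (σ, wS (cu u), cp p) = cp (p.1, p.2.2 + u, p.2.1)

/-- WIRE -/
def WireS : Prop := ∀ N : Num, N.Pol → ∃ wr : Sg × Wn × NP → NP, Poly wr ∧
  ∀ σ E, N.Ok σ E → Bas E → Nb E → WOk wr σ E

/-! ### Gates with named reads -/

/-- The name of a read: source, wire, flag. -/
abbrev LR : Type := ℕ × Wn × Bool

instance decNA : DecidableEq NA := instDecidableEqProd

instance decNP : DecidableEq NP := instDecidableEqProd

instance decWn : DecidableEq Wn := instDecidableEqProd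

instance decLR : DecidableEq LR := instDecidableEqProd

/-- A gate with a parameter: its reads, and its function of the fibre coordinates of the position,
of 512 table symbols and of the values of the reads (`lk t r 0` is the value of the read `r`). -/
structure Op where
  rd : Sg × ℕ → List LR
  fn : (Sg × ℕ) × (NA × NA) × List ℕ × List (LR × ℕ) → ℕ

def Op.Pol (O : Op) : Prop := Poly O.rd ∧ Poly O.fn

/-- The values `t` complete the reads. -/
def Cpl (w : ℕ) (rd : List LR) (val : ℕ → Wn → ℕ → V4) (t : List (LR × ℕ)) : Prop :=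
  ∀ r ∈ rd, Fit w r.2.2 (val r.1 r.2.1) (lk t r 0)

/-- The codes of the table symbols. -/
def tbs {E : Env} (t : ℕ → E.K) : List ℕ := (List.range 512).map fun a => (E.cd (t a) : ℕ)

/-- The gate holds at `p` with the sources `x`, the table symbols `tb` and the output `o`. -/
def Op.Sat (O : Op) (wr : Sg × Wn × NP → NP) (σ : Sg) {E : Env} (l : ℕ) (x : ℕ → NP → ℕ → V4)
    (tb : ℕ → E.K) (p : E.P) (o : ℕ → V4) : Prop :=
  ∀ j < 2 * E.e, ∀ b, (∀ t, Cpl (2 * E.e) (O.rd (σ, l)) (fun s w => x s (wr (σ, w, cp p))) t →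
    (O.fn ((σ, l), (cu p.2.1, cu p.2.2), tbs tb, t)).testBit j = b) → o j = ofB b

/-- A forced form: parameter, sources, table symbols, position, output. -/
abbrev Form : Type 1 :=
  ∀ E : Env, List E.P → ℕ → (ℕ → E.Wd) → (ℕ → E.K) → E.P → (ℕ → V4) → Prop

/-- The setting of a gate. -/
structure Stt (N : Num) (Γ : Sg → List NP) (wr : Sg × Wn × NP → NP) (σ : Sg) (E : Env)
    (Γ' : List E.P) : Prop where
  num : N.Ok σ E
  bas : Bas E
  nb : Nb E
  wr : WOk wr σ E
  gam : Γ σ = Γ'.map cp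
  ne : Γ' ≠ []

/-- The gate `O` has the forced form `Φ`. -/
def Op.Has (O : Op) (N : Num) (Γ : Sg → List NP) (Φ : Form) : Prop :=
  O.Pol ∧ ∀ wr σ E Γ', Stt N Γ wr σ E Γ' → ∀ l x tb p o, O.Sat wr σ l x tb p o →
    Φ E Γ' l (fun s p => x s (cp p)) tb p o

/-- Some gate has the forced form `Φ`. -/
def OpS (Φ : Form) : Prop :=
  ∀ (N : Num) (Γ : Sg → List NP), N.Pol → Poly Γ → ∃ O : Op, O.Has N Γ Φ

/-! ### The forced forms -/

def fV0 : Form := fun E _ d U t p o => ∀ v : ℕ → E.K,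
  (∀ j < 9, Is (U j (p.1 + (if j = 1 then ue d else 0), p.2.1, 0)) (v j)) → Is o (pw t v)

def fCp : Form := fun E _ _ U _ p o =>
  ∀ j < 2 * E.e, ∀ b, rd false (U 0 p j) = some b → o j = ofB b

/-- Two of the three reads have the values `b`, `b'`. -/
def Two (x a : V4) (b b' : Bool) : Prop :=
  (rd true x = some b ∧ (rd true a = some b' ∨ rd false a = some b')) ∨
    (rd true a = some b ∧ rd false a = some b')

def fMj : Form := fun E _ _ U _ p o =>
  ∀ j < 2 * E.e, ∀ b, Two (U 0 p j) (U 1 p j) b b → o j = ofB b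

def fOk : Form := fun E _ _ U _ p o =>
  (∀ c : E.K, Is (U 0 p) c → Is (U 1 p) c → o 0 = 3) ∧
    ∀ j < 2 * E.e, ∀ b, Two (U 0 p j) (U 1 p j) b (!b) → o 0 = 0

/-- PUR -/
def PurS : Prop := ∀ (E : Env) Γ l (U : ℕ → E.Wd) t p m k, fCp E Γ l U t p (U 1 p) →
  fMj E Γ l U t p m → fOk E Γ l U t p k → Pur (E := E) (U 0 p) m (k 0)

def fSub : Form := fun E _ l U _ p o => l < E.D → Sub l (U 0) p o

def fEc (v : Bool) : Form := fun _ _ l U _ p o => Ec l v (U 0) p o

def fTot : Form := fun _ _ _ U _ p o =>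
  Tot (fun l => U (2 * l)) (fun l => U (2 * l + 1) p 0) p (o 0)

def fOut : Form := fun _ _ _ U _ p o => Out (U 0) p o

def fTv : Form := fun E _ _ U _ p o => Tv (E := E) (U 0 p 0) (U 1 p) (U 2 p) (o 0)

def fPe : Form := fun E _ _ U _ p o =>
  (∀ c d : E.K, U 0 p 0 = 3 → U 1 p 0 = 3 → Is (U 2 p) c → Is (U 3 p) c → Is (U 4 p) d →
    Is (U 5 p) d → o 0 = 3) ∧
  (U 0 p 0 = 0 ∨ U 1 p 0 = 0 ∨ (∃ c d : E.K, c ≠ d ∧ Is (U 2 p) c ∧ Is (U 3 p) d) ∨
    (∃ c d : E.K, c ≠ d ∧ Is (U 4 p) c ∧ Is (U 5 p) d) → o 0 = 0)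

def fPz : Form := fun E _ _ U t p o =>
  (U 0 p 0 = 3 → Is (U 1 p) (t 0) → o 0 = 3) ∧
    (U 0 p 0 = 0 ∨ (∃ c : E.K, c ≠ t 0 ∧ Is (U 1 p) c) → o 0 = 0)

def fSe : Form := fun E Γ _ U _ p o =>
  (pr (fun s : Fin Γ.length => U 0 (p + Γ[s]) 0 ≠ 3) ≤ E.sm 32 / 2 → o 0 = 3) ∧
    (E.sm 32 / 2 < pr (fun s : Fin Γ.length => U 0 (p + Γ[s]) 0 = 0) → o 0 = 0)

def fUu : Form := fun _ Γ n U _ p o =>
  (((n : ℝ) + 10) / 36 ≤ pr (fun x : Fin 64 × Fin Γ.length =>
    rd true (U x.1 (p + Γ[x.2]) 0) = some true) → o 0 = 3) ∧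
  (pr (fun x : Fin 64 × Fin Γ.length => rd true (U x.1 (p + Γ[x.2]) 0) ≠ some false) <
    ((n : ℝ) + 10) / 36 → o 0 = 0)

def fSel : Form := fun E _ i U t p o => ∀ c : E.K,
  (∀ a b, T.Adm (fun n => U n p 0) a → T.Adm (fun n => U (18 + n) p 0) b →
    if T.src i a b = 4 then t 0 = c else if T.src i a b = 1 then Is (U 37 p) c
    else if T.src i a b = 3 then Is (U 38 p) c else Is (U 36 p) c) → i < 4 → Is o c

def fVt (c : Bool) : Form := fun _ _ _ U _ p o => ∀ s,
  (∀ a b e z, T.Adm (fun n => U n p 0) a → T.Adm (fun n => U (18 + n) p 0) b →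
    T.Pos (U (36 + T.quad a b) p 0) e → T.Pos (U 40 p 0) z → T.vote c a b e z = s) → o 0 = ofB s

/-! ### The generic assembly -/

/-- GEN: a layout of gates is a plain circuit.  The key `k` has the gate `O` with the parameter
`par k`, the sources `src k` and the tables `tab k`. -/
def GenS : Prop :=
  MacS → ∀ (α κ : Type) [N487b59b3 α] [N487b59b3 κ] [DecidableEq κ] (N : Num) (sg : α → Sg)
    (big : α → List Bool) (wr : Sg × Wn × NP → NP) (O : Op) (lay : Sg → List κ) (par : Sg × κ → ℕ)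
    (src : Sg × κ × ℕ → κ) (tab : α × κ × ℕ × ℕ → Bool), N.Pol → Poly sg → Poly big → Poly wr →
    O.Pol → Poly lay → Poly par → Poly src → Poly tab → (∀ σ, lay σ ≠ []) →
    ∃ (f : α → List PGate) (L : Sg → List Bool) (r : (α × List V4) × κ × NP × ℕ → V4),
      Poly f ∧ Poly L ∧ Poly r ∧ ∀ a E, N.Ok (sg a) E → Bas E → Nb E → WOk wr (sg a) E →
        (big a).length = 2 ^ E.D → PWf (f a) ∧
          (f a).length = 2 ^ E.D * (2 ^ (2 * E.e)) ^ 16 * (L (sg a)).length ∧
          FanLe (f a) (L (sg a)).length ∧ ∀ y, ∃ F : E.P → Prop,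
            pr F ≤ pviol (f a) y * (L (sg a)).length ∧ ∀ p, ¬F p → ∀ k ∈ lay (sg a),
              O.Sat wr (sg a) (par (sg a, k))
                (fun s q j => r ((a, y), src (sg a, k, s), q, j))
                (fun n => enP (fun h => bt (tab (a, k, n, nb h))) p) p
                fun j => r ((a, y), k, cp p, j)

/-! ### A kit for the rows -/

section
variable {E : Env} {x : ℕ → V4} {fl b : Bool} {a : ℕ} {c : E.K}

theorem e_pos (h : Bas E) : 0 < 2 * E.e := by
  have h1 := E.big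
  have h2 : 1000 ≤ E.D := by exact_mod_cast h.qge.2.1
  rcases Nat.eq_zero_or_pos E.e with e | e
  · rw [e] at h1; nlinarith
  · omega

theorem fit_is (h : Fit (2 * E.e) fl x a) (hc : Is x c) : a = E.cd c := by
  refine Nat.eq_of_testBit_eq fun j => ?_
  rcases lt_or_ge j (2 * E.e) with u | u
  · exact h.2 j u _ (by rw [hc j u, rd_ofB])
  · have := Nat.pow_le_pow_right (n := 2) (by omega) u
    rw [Nat.testBit_lt_two_pow (h.1.trans_le this),
      Nat.testBit_lt_two_pow ((E.cd c).2.trans_le this)]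

theorem fit_ex (h : Fit (2 * E.e) fl x a) : ∃ c : E.K, a = E.cd c :=
  ⟨E.cd.symm ⟨a, h.1⟩, by simp⟩

theorem fit_rd (hb : Bas E) (h : Fit (2 * E.e) fl x a) (hc : rd fl (x 0) = some b) :
    a.testBit 0 = b := h.2 0 (e_pos hb) _ hc

theorem fit_bit (hb : Bas E) (h : Fit (2 * E.e) fl x a) (hc : x 0 = ofB b) : a.testBit 0 = b :=
  fit_rd hb h (by rw [hc, rd_ofB])

theorem fit_pos (hb : Bas E) (h : Fit (2 * E.e) fl x a) : T.Pos (x 0) (a.testBit 0) :=
  fun _ hc => fit_bit hb h hc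

theorem cd_inj {c d : E.K} : (E.cd c : ℕ) = E.cd d ↔ c = d :=
  ⟨fun h => E.cd.injective (Fin.ext h), fun h => by rw [h]⟩

variable {O : Op} {wr : Sg × Wn × NP → NP} {σ : Sg} {l : ℕ} {y : ℕ → NP → ℕ → V4} {tb : ℕ → E.K}
  {p : E.P} {o : ℕ → V4}

theorem Op.Sat.is (h : O.Sat wr σ l y tb p o)
    (hc : ∀ t, Cpl (2 * E.e) (O.rd (σ, l)) (fun s w => y s (wr (σ, w, cp p))) t →
      O.fn ((σ, l), (cu p.2.1, cu p.2.2), tbs tb, t) = E.cd c) : Is o c :=
  fun j hj => h j hj _ fun t ht => by rw [hc t ht]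

theorem Op.Sat.bit (hb : Bas E) (h : O.Sat wr σ l y tb p o)
    (hc : ∀ t, Cpl (2 * E.e) (O.rd (σ, l)) (fun s w => y s (wr (σ, w, cp p))) t →
      O.fn ((σ, l), (cu p.2.1, cu p.2.2), tbs tb, t) = b.toNat) : o 0 = ofB b :=
  h 0 (e_pos hb) _ fun t ht => by rw [hc t ht]; cases b <;> rfl

theorem tbs_getD (t : ℕ → E.K) {n : ℕ} (h : n < 512) : (tbs t).getD n 0 = E.cd (t n) := by
  simp [tbs, List.getD_eq_getElem?_getD, h]

end

/-- The sum of codes. -/
def xs (l : List ℕ) : ℕ := l.foldr (· ^^^ ·) 0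

theorem xs_lt {l : List ℕ} {n : ℕ} (h : ∀ a ∈ l, a < 2 ^ n) : xs l < 2 ^ n := by
  induction l with
  | nil => exact Nat.two_pow_pos n
  | cons a l ih => exact Nat.xor_lt_two_pow (h a (by simp)) (ih fun b hb => h b (by simp [hb]))

@[fun_prop] theorem p_xs {α : Type} [N487b59b3 α] {l : α → List ℕ} (h : Poly l) :
    Poly fun a => xs (l a) :=
  Poly.foldr (f := fun _ x y => x ^^^ y) (by fun_prop) h (p_const 0) h.sum.bd fun a _ =>
    length_enc_nat_le (xs_lt fun _ hb => (List.le_sum_of_mem (List.mem_of_mem_drop hb)).trans_lt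
      (lt_two_pow_enc _))

theorem xs_map {E : Env} {ι : Type} (l : List ι) (f : ι → E.K) :
    xs (l.map fun i => (E.cd (f i) : ℕ)) = E.cd (l.map f).sum := by
  induction l with
  | nil => exact E.cd_zero.symm
  | cons a l ih => rw [List.map_cons, List.map_cons, List.sum_cons, E.add, ← ih]; rfl

theorem xs_range {E : Env} (n : ℕ) (f : ℕ → E.K) :
    xs ((List.range n).map fun i => (E.cd (f i) : ℕ)) = E.cd (∑ i ∈ Finset.range n, f i) := by
  rw [xs_map, ← List.sum_toFinset f List.nodup_range, List.toFinset_range]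

/-- The elements of the field in the order of their codes. -/
theorem exists_list (E : Env) : ∃ l : List E.K, List.range (2 ^ (2 * E.e)) =
    0 :: l.map (fun c => (E.cd c : ℕ)) ∧ l.Nodup ∧ ∀ c, c ∈ l ↔ c ≠ 0 := by
  have e : List.range (2 ^ (2 * E.e)) =
      ((List.finRange _).map E.cd.symm).map fun c => (E.cd c : ℕ) := by
    simp [Function.comp_def]
  have n : ((List.finRange _).map E.cd.symm).Nodup :=
    (List.nodup_finRange _).map E.cd.symm.injective
  have m : ∀ c, c ∈ (List.finRange _).map E.cd.symm := fun c =>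
    List.mem_map.2 ⟨E.cd c, List.mem_finRange _, by simp⟩
  generalize (List.finRange _).map E.cd.symm = l at e n m
  obtain ⟨k, hk⟩ : ∃ k, 2 ^ (2 * E.e) = k + 1 := ⟨_, (Nat.succ_pred_eq_of_pos (by positivity)).symm⟩
  rcases l with _ | ⟨c, l⟩
  · exact absurd (m 0) List.not_mem_nil
  have c0 : c = 0 := by
    have := congrArg (·.headD 1) e
    simp only [hk, List.range_succ_eq_map, List.map_cons, List.headD_cons] at this
    exact cd_inj.1 (this.symm.trans E.cd_zero.symm)
  subst c0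
  rw [List.nodup_cons] at n
  refine ⟨l, by rw [e, List.map_cons, E.cd_zero], n.2, fun c => ⟨fun h k => n.1 (k ▸ h), fun h =>
    (List.mem_cons.1 (m c)).resolve_left h⟩⟩

/-- The sum over the nonzero elements of the field. -/
theorem xs_nz {E : Env} {u : List Bool} (hu : u.length = 2 ^ (2 * E.e)) (F : ℕ → ℕ)
    (f : E.K → E.K) (h : ∀ t, t ≠ 0 → F (E.cd t) = E.cd (f t)) :
    xs ((idx u).tail.map F) = E.cd (∑ t ∈ Finset.univ.erase (0 : E.K), f t) := by
  obtain ⟨l, h1, h2, h3⟩ := exists_list E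
  rw [idx, hu, h1, List.tail_cons, List.map_map,
    List.map_congr_left (f := F ∘ _) (g := fun t => (E.cd (f t) : ℕ)) fun t ht => h t ((h3 t).1 ht), xs_map,
    ← List.sum_toFinset f h2]
  congr 3
  ext c
  simp [h3]

/-- Probabilities on the positions of a list. -/
theorem pr_fin {β : Type} (l : List β) (B : β → Bool) :
    pr (fun s : Fin l.length => B l[s] = true) = (l.countP B : ℝ) / l.length := by
  rw [pr_eq_cn, cn_eq, Nat.card_fin]
  congr 2
  conv_rhs => rw [← List.ofFn_getElem (xs := l), List.ofFn_eq_map, List.countP_map,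
    List.countP_eq_length_filter, ← List.toFinset_card_of_nodup
      ((List.nodup_finRange _).filter _)]
  congr 1
  ext s
  simp

/-- Probabilities on a listed type. -/
theorem pr_list {β : Type} {l : List β} (h : l.Nodup) (h' : ∀ a, a ∈ l) (B : β → Bool) :
    pr (fun a => B a = true) = (l.countP B : ℝ) / l.length := by
  rw [← pr_fin, ← pr_bij (e := fun s : Fin l.length => l[s])
    ⟨h.injective_get, fun a => List.get_of_mem (h' a)⟩]

end Pool.Agent.PP.QL.I
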